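import Pool.Agent.H783.Hopf.Tensor

/-!
# Second fundamental forms in a narrow cone; space forms
-/

set_option autoImplicit false

namespace Pool.Agent.H783.Hopf

open Finset MeasureTheory Metric
open Pool.Agent.W666.GB Pool.Agent.W669.HD
open Pool.Agent.Results.MP_5a30bb_gt.SubmanifoldsOfProducts (SecondForm extR sq PureNonpos
  GeneralPrinciple)

section basic

variable {V W : Type} [NormedAddCommGroup V] [InnerProductSpace ℝ V]
  [NormedAddCommGroup W] [InnerProductSpace ℝ W] {m : ℕ}

/-- minus a sum of squares of decomposable two-forms -/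
def NegSquares (T : V → V → V → V → ℝ) : Prop :=
  ∃ (n : ℕ) (ξ η : Fin n → V), ∀ x y z w, T x y z w = - ∑ k, sq (ξ k) (η k) x y z w

/-- the values `β x x` lie in the circular cone about the unit vector `ν` where the distance to the
axis is at most `1 / 24` of the height -/
def Conical (β : V → V → W) (ν : W) : Prop :=
  ‖ν‖ = 1 ∧ ∀ x : V, ‖β x x - inner ℝ ν (β x x) • ν‖ ≤ 1 / 24 * inner ℝ ν (β x x)

/-- the vector with given coordinates -/
noncomputable def vec (e : OrthonormalBasis (Fin m × Bool) ℝ V)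
    (x : EuclideanSpace ℝ (Fin m × Bool)) : V := ∑ i, x i • e i

theorem vec_norm (e : OrthonormalBasis (Fin m × Bool) ℝ V)
    (x : EuclideanSpace ℝ (Fin m × Bool)) : ‖vec e x‖ = ‖x‖ := by
  have h : vec e x = e.repr.symm x := (e.sum_repr_symm x)
  rw [h, LinearIsometryEquiv.norm_map]

/-- expansion of a second form -/
theorem form_vec {β : V → V → W} (hs : SecondForm β) (e : OrthonormalBasis (Fin m × Bool) ℝ V)
    (x : EuclideanSpace ℝ (Fin m × Bool)) :
    β (vec e x) (vec e x) = ∑ i, ∑ j, (x i * x j) • β (e i) (e j) := by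
  have hm : ∀ x y, β x y = hs.map x y := fun _ _ => rfl
  simp only [hm]
  unfold vec
  simp only [map_sum, LinearMap.sum_apply, map_smul, LinearMap.smul_apply, smul_smul,
    Finset.smul_sum]
  refine Finset.sum_congr rfl fun i _ => Finset.sum_congr rfl fun j _ => ?_
  rw [← hm, ← hm, hs.symm]

theorem qf_form {β : V → V → W} (hs : SecondForm β) (e : OrthonormalBasis (Fin m × Bool) ℝ V)
    (L : W →ₗ[ℝ] ℝ) (x : EuclideanSpace ℝ (Fin m × Bool)) :
    qf (fun i j => L (β (e i) (e j))) x = L (β (vec e x) (vec e x)) := by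
  rw [form_vec hs e x]
  unfold qf
  simp only [map_sum, map_smul, smul_eq_mul]
  refine Finset.sum_congr rfl fun i _ => Finset.sum_congr rfl fun j _ => ?_
  ring

/-- the linear forms `u ↦ ⟨f k, u - ⟨ν, u⟩ ν⟩` -/
noncomputable def perpL {n : ℕ} (f : OrthonormalBasis (Fin n) ℝ W) (ν : W) (k : Fin n) :
    W →ₗ[ℝ] ℝ :=
  (innerₛₗ ℝ (f k)) - (inner ℝ (f k) ν : ℝ) • (innerₛₗ ℝ ν)

theorem perpL_apply {n : ℕ} (f : OrthonormalBasis (Fin n) ℝ W) (ν : W) (k : Fin n) (u : W) :
    perpL f ν k u = inner ℝ (f k) (u - (inner ℝ ν u : ℝ) • ν) := by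
  unfold perpL
  simp only [LinearMap.sub_apply, innerₛₗ_apply_apply, LinearMap.smul_apply, smul_eq_mul,
    inner_sub_right, inner_smul_right]
  ring

theorem perp_sum {n : ℕ} (f : OrthonormalBasis (Fin n) ℝ W) {ν : W} (hν : ‖ν‖ = 1) (u w : W) :
    inner ℝ ν u * inner ℝ ν w + ∑ k, perpL f ν k u * perpL f ν k w = inner ℝ u w := by
  have h1 : ∑ k, perpL f ν k u * perpL f ν k w =
      inner ℝ (u - (inner ℝ ν u : ℝ) • ν) (w - (inner ℝ ν w : ℝ) • ν) := by
    rw [← f.sum_inner_mul_inner]
    refine Finset.sum_congr rfl fun k _ => ?_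
    rw [perpL_apply, perpL_apply, real_inner_comm (u - _) (f k)]
  rw [h1]
  simp only [inner_sub_left, inner_sub_right, inner_smul_left, inner_smul_right, conj_trivial,
    real_inner_self_eq_norm_sq, hν, real_inner_comm ν u]
  ring

/-- **Second fundamental forms in a narrow cone.** -/
theorem cone_bound [FiniteDimensional ℝ W] (e : OrthonormalBasis (Fin m × Bool) ℝ V)
    {β : V → V → W} {ν : W} (hs : SecondForm β) (hc : Conical β ν) :
    1 / 2 * (4 / 9) ^ m * ((Matrix.of fun i j => inner ℝ ν (β (e i) (e j))).det * roundGB m 1) ≤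
      (-1) ^ m * gbc e (negT (extR β)) := by
  classical
  obtain ⟨hν, hcone⟩ := hc
  set f := stdOrthonormalBasis ℝ W with hf
  refine gbc_cone e (negT (extR β)) (fun i j => innerₛₗ ℝ ν (β (e i) (e j)))
    (fun k i j => perpL f ν k (β (e i) (e j))) (fun i j => by rw [hs.symm])
    (fun k i j => by rw [hs.symm]) ?_ ?_ ?_
  · intro x
    rw [qf_form hs e (innerₛₗ ℝ ν) x]
    have h1 := hcone (vec e x)
    have h2 := norm_nonneg (β (vec e x) (vec e x) -
      inner ℝ ν (β (vec e x) (vec e x)) • ν)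
    simp only [innerₛₗ_apply_apply]
    linarith
  · intro x
    rw [qf_form hs e (innerₛₗ ℝ ν) x]
    have h1 : ∀ k, qf (fun i j => perpL f ν k (β (e i) (e j))) x =
        perpL f ν k (β (vec e x) (vec e x)) := fun k => qf_form hs e (perpL f ν k) x
    simp only [h1, innerₛₗ_apply_apply]
    set u := β (vec e x) (vec e x) with hu
    have h2 : ∑ k, perpL f ν k u ^ 2 = ‖u - (inner ℝ ν u : ℝ) • ν‖ ^ 2 := by
      have h3 := f.sum_sq_norm_inner_right (u - (inner ℝ ν u : ℝ) • ν)
      rw [← h3]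
      refine Finset.sum_congr rfl fun k _ => ?_
      rw [perpL_apply, Real.norm_eq_abs, sq_abs]
    rw [h2]
    have h4 := hcone (vec e x)
    rw [← hu] at h4
    calc ‖u - (inner ℝ ν u : ℝ) • ν‖ ^ 2 ≤ (1 / 24 * inner ℝ ν u) ^ 2 :=
          pow_le_pow_left₀ (norm_nonneg _) h4 2
      _ = 1 / 576 * inner ℝ ν u ^ 2 := by ring
  · intro i j k l
    simp only [negT, extR, innerₛₗ_apply_apply]
    rw [perp_sum f hν, perp_sum f hν]

theorem extR_curv {β : V → V → W} (hs : SecondForm β) : AlgCurv (extR β) :=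
  Pool.Agent.Y489.SM.gauss_curv (β := hs.map) hs.symm

theorem negT_curv {R : V → V → V → V → ℝ} (h : AlgCurv R) : AlgCurv (negT R) where
  add x x' y z w := by simp only [negT, h.add]; ring
  smul t x y z w := by simp only [negT, h.smul]; ring
  anti x y z w := by simp only [negT, h.anti x y z w]
  pair x y z w := by simp only [negT, h.pair x y z w]
  bianchi x y z w := by
    have := h.bianchi x y z w
    simp only [negT]
    linarith

/-- adding minus a sum of squares of decomposable two-forms -/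
theorem add_squares (e : OrthonormalBasis (Fin m × Bool) ℝ V) {S T : V → V → V → V → ℝ}
    (hS : AlgCurv S) (hT : NegSquares T)
    (h : ∀ k, k < m → ∀ (E : Submodule ℝ V) (ε : OrthonormalBasis (Fin k × Bool) ℝ E),
      0 ≤ (-1) ^ k * gbc ε (fun x y z w : E => S x y z w)) :
    (-1) ^ m * gbc e S ≤ (-1) ^ m * gbc e (addT S T) := by
  have hG : GeneralPrinciple :=
    Pool.Agent.Results.MP_5a30bb_gt.SubmanifoldsOfProducts.result.2.2.2
  refine hG m V e 1 (fun _ => 2 * m) S T hS ?_ fun k _ hk E ε => h k hk E ε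
  obtain ⟨n, ξ, η, hn⟩ := hT
  refine ⟨fun _ => ⊤, n, ξ, η, fun _ => 0, fun _ => ?_, fun _ => trivial, fun _ => trivial, hn⟩
  rw [finrank_top, Module.finrank_eq_card_basis e.toBasis, Fintype.card_prod, Fintype.card_fin,
    Fintype.card_bool, mul_comm]

theorem cone_nonneg [FiniteDimensional ℝ W] (e : OrthonormalBasis (Fin m × Bool) ℝ V)
    {β : V → V → W} {ν : W} (hs : SecondForm β) (hc : Conical β ν) :
    0 ≤ (-1) ^ m * gbc e (negT (extR β)) := by
  classical
  refine le_trans ?_ (cone_bound e hs hc)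
  have h1 : 0 ≤ (Matrix.of fun i j => inner ℝ ν (β (e i) (e j))).det := by
    refine (psd_of_qf (A := fun i j => innerₛₗ ℝ ν (β (e i) (e j))) ?_ ?_).det_nonneg
    · intro i j
      rw [hs.symm]
    · intro x
      rw [qf_form hs e (innerₛₗ ℝ ν) x]
      have h1 := hc.2 (vec e x)
      have h2 := norm_nonneg (β (vec e x) (vec e x) -
        inner ℝ ν (β (vec e x) (vec e x)) • ν)
      simp only [innerₛₗ_apply_apply]
      linarith
  have h2 : 0 ≤ roundGB m 1 := roundGB_nonneg zero_le_one
  positivity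

/-- **Conical second fundamental forms, with squares added.** -/
theorem cone_squares [FiniteDimensional ℝ W] (e : OrthonormalBasis (Fin m × Bool) ℝ V)
    {β : V → V → W} {ν : W} (hs : SecondForm β) (hc : Conical β ν) {T : V → V → V → V → ℝ}
    (hT : NegSquares T) :
    1 / 2 * (4 / 9) ^ m * ((Matrix.of fun i j => inner ℝ ν (β (e i) (e j))).det * roundGB m 1) ≤
      (-1) ^ m * gbc e (addT (negT (extR β)) T) := by
  refine (cone_bound e hs hc).trans ?_
  refine add_squares e (negT_curv (extR_curv hs)) hT fun k _ E ε => ?_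
  have hsE : SecondForm (fun x y : E => β x y) :=
    ⟨fun x y => hs.symm _ _, fun x x' y => hs.add _ _ _, fun t x y => hs.smul _ _ _⟩
  have hcE : Conical (fun x y : E => β x y) ν := ⟨hc.1, fun x => hc.2 x⟩
  exact cone_nonneg ε hsE hcE

end basic

end Pool.Agent.H783.Hopf
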