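import Pool.Agent.H783.Hopf.Spec

/-!
# Means over the unit ball of powers of a quadratic form
-/

set_option autoImplicit false

namespace Pool.Agent.H783.Hopf

open Finset MeasureTheory Metric

variable {J : Type} [Fintype J] [DecidableEq J]


/-- volume of the unit ball -/
noncomputable def vb (J : Type) [Fintype J] : ℝ :=
  (volume : Measure (EuclideanSpace ℝ J)).real (ball 0 1)

omit [DecidableEq J] in
theorem vb_pos : 0 < vb J := by
  unfold vb
  rw [measureReal_def]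
  exact ENNReal.toReal_pos (measure_ball_pos _ _ one_pos).ne' measure_ball_lt_top.ne

omit [DecidableEq J] in
theorem vol_ball (r : ℝ) (hr : 0 < r) :
    (volume : Measure (EuclideanSpace ℝ J)).real (ball 0 r) = r ^ Fintype.card J * vb J := by
  unfold vb
  rw [measureReal_def, measureReal_def, Measure.addHaar_ball_of_pos _ _ hr, ENNReal.toReal_mul,
    finrank_euclideanSpace, ENNReal.toReal_ofReal (by positivity)]

omit [DecidableEq J] in
/-- a half ball -/
theorem half_ball (v : (EuclideanSpace ℝ J)) (r : ℝ) :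
    (volume : Measure (EuclideanSpace ℝ J)).real (ball 0 r) ≤
      2 * (volume : Measure (EuclideanSpace ℝ J)).real (ball 0 r ∩ {z | 0 ≤ inner ℝ v z}) := by
  have hmeas : MeasurableSet {z : (EuclideanSpace ℝ J) | 0 ≤ inner ℝ v z} := by
    apply measurableSet_le measurable_const
    fun_prop
  have h1 : ball (0 : (EuclideanSpace ℝ J)) r ⊆ (ball 0 r ∩ {z | 0 ≤ inner ℝ v z}) ∪
      (Neg.neg ⁻¹' (ball 0 r ∩ {z | 0 ≤ inner ℝ v z})) := by
    intro z hz
    rcases le_total 0 (inner ℝ v z : ℝ) with h | h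
    · exact Or.inl ⟨hz, h⟩
    · refine Or.inr ⟨?_, ?_⟩
      · simpa using hz
      · simp only [Set.mem_ofPred_eq, inner_neg_right]
        linarith
  have h2 : (volume : Measure (EuclideanSpace ℝ J)) (Neg.neg ⁻¹' (ball 0 r ∩ {z | 0 ≤ inner ℝ v z})) =
      volume (ball 0 r ∩ {z : (EuclideanSpace ℝ J) | 0 ≤ inner ℝ v z}) :=
    (Measure.measurePreserving_neg (volume : Measure (EuclideanSpace ℝ J))).measure_preimage
      (measurableSet_ball.inter hmeas).nullMeasurableSet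
  have hfin : (volume : Measure (EuclideanSpace ℝ J)) (ball 0 r ∩ {z : (EuclideanSpace ℝ J) | 0 ≤ inner ℝ v z}) ≠ ⊤ :=
    (lt_of_le_of_lt (measure_mono Set.inter_subset_left) measure_ball_lt_top).ne
  have h3 : (volume : Measure (EuclideanSpace ℝ J)) (ball 0 r) ≤
      volume (ball 0 r ∩ {z : (EuclideanSpace ℝ J) | 0 ≤ inner ℝ v z}) +
      volume (ball 0 r ∩ {z : (EuclideanSpace ℝ J) | 0 ≤ inner ℝ v z}) := by
    calc (volume : Measure (EuclideanSpace ℝ J)) (ball 0 r) ≤ _ := measure_mono h1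
      _ ≤ _ := measure_union_le _ _
      _ = _ := by rw [h2]
  rw [measureReal_def, measureReal_def, two_mul, ← ENNReal.toReal_add hfin hfin]
  exact ENNReal.toReal_mono (by simp [hfin]) h3

omit [DecidableEq J] in
theorem int_ball {f : (EuclideanSpace ℝ J) → ℝ} (hf : Continuous f) :
    IntegrableOn f (ball 0 1) volume :=
  (hf.continuousOn.integrableOn_compact (isCompact_closedBall (0 : (EuclideanSpace ℝ J)) 1)).mono_set
    ball_subset_closedBall

omit [DecidableEq J] in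
/-- the mean of a power of the norm -/
theorem ball_norm {m : ℕ} (hm : 1 ≤ m) (hJ : Fintype.card J = 2 * m) :
    ∫ x : (EuclideanSpace ℝ J) in ball 0 1, (‖x‖ ^ 4) ^ m = vb J / 3 := by
  have h1 : ∫ x : (EuclideanSpace ℝ J) in ball 0 1, (‖x‖ ^ 4) ^ m =
      ∫ x : (EuclideanSpace ℝ J), (fun y : ℝ => Set.indicator (Set.Iio 1) (fun y => (y ^ 4) ^ m) y) ‖x‖ := by
    rw [← integral_indicator measurableSet_ball]
    refine integral_congr_ae (Filter.Eventually.of_forall fun x => ?_)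
    by_cases hx : ‖x‖ < 1
    · simp [Set.indicator, hx]
    · simp [Set.indicator, hx]
  have : Nontrivial (EuclideanSpace ℝ J) := by
    apply Module.nontrivial_of_finrank_pos (R := ℝ)
    rw [finrank_euclideanSpace, hJ]
    omega
  rw [h1, integral_fun_norm_addHaar]
  have h2 : ∫ y in Set.Ioi (0 : ℝ), y ^ (Module.finrank ℝ (EuclideanSpace ℝ J) - 1) •
      (Set.indicator (Set.Iio 1) (fun y => (y ^ 4) ^ m) y) = 1 / (6 * m : ℝ) := by
    have h3 : ∀ y : ℝ, y ^ (Module.finrank ℝ (EuclideanSpace ℝ J) - 1) •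
        (Set.indicator (Set.Iio 1) (fun y => (y ^ 4) ^ m) y) =
        Set.indicator (Set.Iio 1) (fun y : ℝ => y ^ (6 * m - 1)) y := by
      intro y
      rw [finrank_euclideanSpace, hJ]
      by_cases hy : y < 1
      · simp only [Set.indicator, Set.mem_Iio, hy, if_true, smul_eq_mul]
        rw [← pow_mul, ← pow_add]
        congr 1
        omega
      · simp [Set.indicator, hy]
    simp only [h3]
    rw [setIntegral_indicator measurableSet_Iio]
    have h4 : Set.Ioi (0 : ℝ) ∩ Set.Iio 1 = Set.Ioo 0 1 := by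
      ext y
      simp
    rw [h4, ← integral_Ioc_eq_integral_Ioo, ← intervalIntegral.integral_of_le zero_le_one,
      integral_pow]
    have h5 : 6 * m - 1 + 1 = 6 * m := by omega
    rw [h5]
    have h6 : ((6 * m - 1 : ℕ) : ℝ) + 1 = 6 * m := by
      have : ((6 * m - 1 : ℕ) : ℝ) + 1 = ((6 * m - 1 + 1 : ℕ) : ℝ) := by push_cast; ring
      rw [this, h5]
      push_cast
      ring
    rw [h6]
    have h7 : (0 : ℝ) ^ (6 * m) = 0 := zero_pow (by omega)
    rw [h7]
    simp
  rw [h2, finrank_euclideanSpace, hJ]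
  have hm' : (m : ℝ) ≠ 0 := by positivity
  unfold vb
  simp only [nsmul_eq_mul, smul_eq_mul]
  push_cast
  field_simp
  ring

/-- the quadratic form is large on a translated half ball -/
theorem qf_large {M : J → J → ℝ} {lam : J → ℝ} {v : OrthonormalBasis J ℝ (EuclideanSpace ℝ J)}
    (hq : ∀ x : (EuclideanSpace ℝ J), qf M x = ∑ k, lam k * inner ℝ (v k) x ^ 2) {k₀ : J}
    (hk : ∀ k, |lam k| ≤ |lam k₀|) {z : (EuclideanSpace ℝ J)} (hz : ‖z‖ < 1 / 4) (hz0 : 0 ≤ inner ℝ (v k₀) z) :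
    (|lam k₀| / 2) ^ 2 ≤ qf M ((3 / 4 : ℝ) • v k₀ + z) ^ 2 := by
  set b := |lam k₀| with hb
  have hb0 : 0 ≤ b := abs_nonneg _
  have h1 : ∀ k, inner ℝ (v k) ((3 / 4 : ℝ) • v k₀ + z) =
      (if k = k₀ then 3 / 4 else 0) + inner ℝ (v k) z := by
    intro k
    rw [inner_add_right, inner_smul_right, orthonormal_iff_ite.1 v.orthonormal k k₀]
    split_ifs <;> ring
  have hz2 : ∑ k, inner ℝ (v k) z ^ 2 = ‖z‖ ^ 2 := by
    have := v.sum_sq_norm_inner_right z
    simpa using this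
  have h2 : qf M ((3 / 4 : ℝ) • v k₀ + z) =
      lam k₀ * (3 / 4 + inner ℝ (v k₀) z) ^ 2 +
        ∑ k ∈ univ.erase k₀, lam k * inner ℝ (v k) z ^ 2 := by
    rw [hq, ← Finset.add_sum_erase univ _ (Finset.mem_univ k₀), h1, if_pos rfl]
    congr 1
    refine Finset.sum_congr rfl fun k hk' => ?_
    rw [h1, if_neg (Finset.ne_of_mem_erase hk'), zero_add]
  have h3 : |∑ k ∈ univ.erase k₀, lam k * inner ℝ (v k) z ^ 2| ≤ b * (1 / 16) := by
    calc |∑ k ∈ univ.erase k₀, lam k * inner ℝ (v k) z ^ 2|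
        ≤ ∑ k ∈ univ.erase k₀, |lam k * inner ℝ (v k) z ^ 2| := Finset.abs_sum_le_sum_abs _ _
      _ ≤ ∑ k ∈ univ.erase k₀, b * inner ℝ (v k) z ^ 2 := by
          refine Finset.sum_le_sum fun k _ => ?_
          rw [abs_mul, abs_of_nonneg (sq_nonneg (inner ℝ (v k) z : ℝ))]
          exact mul_le_mul_of_nonneg_right (hk k) (sq_nonneg _)
      _ ≤ ∑ k, b * inner ℝ (v k) z ^ 2 :=
          Finset.sum_le_sum_of_subset_of_nonneg (Finset.erase_subset _ _)
            fun k _ _ => mul_nonneg hb0 (sq_nonneg _)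
      _ = b * ‖z‖ ^ 2 := by rw [← Finset.mul_sum, hz2]
      _ ≤ b * (1 / 16) := by
          refine mul_le_mul_of_nonneg_left ?_ hb0
          have := norm_nonneg z
          nlinarith
  have h4 : b * (9 / 16) ≤ |lam k₀ * (3 / 4 + inner ℝ (v k₀) z) ^ 2| := by
    rw [abs_mul, abs_of_nonneg (sq_nonneg (3 / 4 + inner ℝ (v k₀) z : ℝ))]
    refine mul_le_mul_of_nonneg_left ?_ hb0
    nlinarith
  have h5 : b / 2 ≤ |qf M ((3 / 4 : ℝ) • v k₀ + z)| := by
    rw [h2]
    have h6 := abs_sub_abs_le_abs_sub (lam k₀ * (3 / 4 + inner ℝ (v k₀) z) ^ 2)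
      (-∑ k ∈ univ.erase k₀, lam k * inner ℝ (v k) z ^ 2)
    rw [abs_neg, sub_neg_eq_add] at h6
    linarith
  rw [← sq_abs (qf M _)]
  exact pow_le_pow_left₀ (by positivity) h5 2

/-- the mean over the ball of the power of a quadratic form, from below -/
theorem ball_lower {m : ℕ} (hJ : Fintype.card J = 2 * m) {M : J → J → ℝ} {lam : J → ℝ}
    {v : OrthonormalBasis J ℝ (EuclideanSpace ℝ J)}
    (hq : ∀ x : (EuclideanSpace ℝ J), qf M x = ∑ k, lam k * inner ℝ (v k) x ^ 2) {k₀ : J}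
    (hk : ∀ k, |lam k| ≤ |lam k₀|) :
    (lam k₀ ^ 2) ^ m * (1 / 2 * (1 / 8) ^ (2 * m) * vb J) ≤
      ∫ x : (EuclideanSpace ℝ J) in ball 0 1, (qf M x ^ 2) ^ m := by
  set a : (EuclideanSpace ℝ J) := (3 / 4 : ℝ) • v k₀ with ha
  have hna : ‖a‖ = 3 / 4 := by
    rw [ha, norm_smul, v.norm_eq_one, Real.norm_of_nonneg (by norm_num), mul_one]
  set H : Set (EuclideanSpace ℝ J) := ball 0 (1 / 4) ∩ {z | 0 ≤ inner ℝ (v k₀) z} with hH
  have hmeas : MeasurableSet {z : (EuclideanSpace ℝ J) | 0 ≤ inner ℝ (v k₀) z} := by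
    apply measurableSet_le measurable_const
    fun_prop
  have hHm : MeasurableSet H := measurableSet_ball.inter hmeas
  set S : Set (EuclideanSpace ℝ J) := (fun x => x + -a) ⁻¹' H with hS
  have hSm : MeasurableSet S := (measurable_add_const (-a)) hHm
  have hvol : (volume : Measure (EuclideanSpace ℝ J)).real S = (volume : Measure (EuclideanSpace ℝ J)).real H := by
    rw [measureReal_def, measureReal_def, hS, measure_preimage_add_right]
  have hsub : S ⊆ ball 0 1 := by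
    intro x hx
    have h1 : ‖x + -a‖ < 1 / 4 := by simpa using hx.1
    rw [mem_ball_zero_iff]
    calc ‖x‖ = ‖(x + -a) + a‖ := by rw [neg_add_cancel_right]
      _ ≤ ‖x + -a‖ + ‖a‖ := norm_add_le _ _
      _ < 1 := by rw [hna]; linarith
  have hcont : Continuous fun x : (EuclideanSpace ℝ J) => (qf M x ^ 2) ^ m := ((qf_cont M).pow 2).pow m
  have hlow : ∀ x ∈ S, ((|lam k₀| / 2) ^ 2) ^ m ≤ (qf M x ^ 2) ^ m := by
    intro x hx
    have h1 : ‖x + -a‖ < 1 / 4 := by simpa using hx.1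
    have h2 : 0 ≤ inner ℝ (v k₀) (x + -a) := hx.2
    have h3 := qf_large hq hk h1 h2
    have h4 : (3 / 4 : ℝ) • v k₀ + (x + -a) = x := by rw [← ha]; abel
    rw [h4] at h3
    exact pow_le_pow_left₀ (by positivity) h3 m
  have hSfin : (volume : Measure (EuclideanSpace ℝ J)) S ≠ ⊤ :=
    (lt_of_le_of_lt (measure_mono hsub) measure_ball_lt_top).ne
  have h5 : (volume : Measure (EuclideanSpace ℝ J)).real S * ((|lam k₀| / 2) ^ 2) ^ m ≤
      ∫ x : (EuclideanSpace ℝ J) in S, (qf M x ^ 2) ^ m := by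
    have h6 : ∫ _x : (EuclideanSpace ℝ J) in S, ((|lam k₀| / 2) ^ 2) ^ m =
        (volume : Measure (EuclideanSpace ℝ J)).real S * ((|lam k₀| / 2) ^ 2) ^ m := by
      rw [setIntegral_const, smul_eq_mul]
    rw [← h6]
    exact setIntegral_mono_on (integrableOn_const hSfin) ((int_ball hcont).mono_set hsub) hSm hlow
  have h7 : ∫ x : (EuclideanSpace ℝ J) in S, (qf M x ^ 2) ^ m ≤ ∫ x : (EuclideanSpace ℝ J) in ball 0 1, (qf M x ^ 2) ^ m := by
    refine setIntegral_mono_set (int_ball hcont) ?_ (LE.le.eventuallyLE hsub)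
    exact Filter.Eventually.of_forall fun x => by positivity
  refine le_trans ?_ (h5.trans h7)
  have h8 := half_ball (J := J) (v k₀) (1 / 4)
  rw [vol_ball _ (by norm_num), hJ, ← hH, ← hvol] at h8
  have h9 : ((|lam k₀| / 2) ^ 2) ^ m = (lam k₀ ^ 2) ^ m * (1 / 2) ^ (2 * m) := by
    rw [div_pow, sq_abs, div_pow, ← pow_mul, ← pow_mul, div_pow 1 2, one_pow]
    ring
  rw [h9]
  have h10 : (1 / 8 : ℝ) ^ (2 * m) = (1 / 4) ^ (2 * m) * (1 / 2) ^ (2 * m) := by
    rw [← mul_pow]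
    norm_num
  rw [h10]
  have h11 : 0 ≤ (lam k₀ ^ 2) ^ m * (1 / 2 : ℝ) ^ (2 * m) := by positivity
  nlinarith

end Pool.Agent.H783.Hopf
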