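import Pool.Agent.H783.Hopf.Stm

/-!
# The class of tensors with second fundamental form in a narrow cone
-/

set_option autoImplicit false
set_option linter.unusedSectionVars false
set_option linter.unusedSimpArgs false

namespace Pool.Agent.H783.Hopf

open Finset MeasureTheory
open Pool.Agent.W666.GB Pool.Agent.W669.HD
open Pool.Agent.Results.MP_5a30bb_gt.SubmanifoldsOfProducts (SecondForm extR sq)

section cls

variable {V : Type} [NormedAddCommGroup V] [InnerProductSpace ℝ V] {m : ℕ}

theorem biform_zero {ι : Type} [Fintype ι] (e : OrthonormalBasis ι ℝ V)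
    {K : V → V → V → V → ℝ} (hK : BiForm K)
    (h : ∀ i j k l, K (e i) (e j) (e k) (e l) = 0) (x y z w : V) : K x y z w = 0 := by
  have h0 : ∀ y z w, (∀ i, K (e i) y z w = 0) → ∀ x, K x y z w = 0 := by
    intro y z w h1 x
    let f : V →ₗ[ℝ] ℝ :=
      { toFun := fun x => K x y z w
        map_add' := fun a b => hK.add a b y z w
        map_smul' := fun t a => hK.smul t a y z w }
    have h2 : f = 0 := e.toBasis.ext fun i => by
      rw [OrthonormalBasis.coe_toBasis]
      exact h1 i
    have h3 : f x = 0 := by rw [h2]; rfl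
    exact h3
  have h1 : ∀ i j k w, K (e i) (e j) (e k) w = 0 := by
    intro i j k w
    rw [← hK.pair, hK.anti, h0 (e k) (e i) (e j) (fun l => ?_) w, neg_zero]
    rw [hK.anti, hK.pair, h, neg_zero]
  have h2 : ∀ i j z w, K (e i) (e j) z w = 0 := by
    intro i j z w
    rw [← hK.pair]
    exact h0 w (e i) (e j) (fun k => by rw [hK.pair, h1]) z
  have h3 : ∀ i y z w, K (e i) y z w = 0 := by
    intro i y z w
    rw [hK.anti, h0 (e i) z w (fun j => h2 j i z w) y, neg_zero]
  exact h0 y z w (fun i => h3 i y z w) x

theorem biform_kn {h : V → V → ℝ} (hh : SymForm h) : BiForm (kn h) where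
  add x x' y z w := by simp only [kn, hh.add]; ring
  smul t x y z w := by simp only [kn, hh.smul]; ring
  anti x y z w := by simp only [kn]; ring
  pair x y z w := by
    simp only [kn]
    rw [hh.symm z x, hh.symm w y, hh.symm z y, hh.symm w x]
    ring

theorem AlgCurv.bi {R : V → V → V → V → ℝ} (h : AlgCurv R) : BiForm R where
  add := h.add
  smul := h.smul
  anti := h.anti
  pair := h.pair

/-- the vector valued form -/
noncomputable def vform {n : ℕ} (A : V → V → ℝ) (h : Fin n → V → V → ℝ) (x y : V) :
    EuclideanSpace ℝ (Option (Fin n)) :=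
  WithLp.toLp 2 fun o => o.elim (A x y) fun k => h k x y

theorem vform_inner {n : ℕ} (A : V → V → ℝ) (h : Fin n → V → V → ℝ) (x y z w : V) :
    inner ℝ (vform A h x y) (vform A h z w) = A x y * A z w + ∑ k, h k x y * h k z w := by
  rw [PiLp.inner_apply]
  simp only [vform, Fintype.sum_option, Option.elim, RCLike.inner_apply, conj_trivial]
  congr 1
  · ring
  · refine Finset.sum_congr rfl fun k _ => ?_
    ring

/-- **The bound for the class.** -/
theorem narrow_bound (e : OrthonormalBasis (Fin m × Bool) ℝ V) {A : V → V → ℝ}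
    {R : V → V → V → V → ℝ} (hR : NarrowCone A R) :
    1 / 2 * (4 / 9) ^ m * ((Matrix.of fun i j => A (e i) (e j)).det * roundGB m 1) ≤
      (-1) ^ m * gbc e R := by
  obtain ⟨hA, hA0, n, h, q, ξ, η, hh, hc, hR⟩ := hR
  set ν : EuclideanSpace ℝ (Option (Fin n)) := EuclideanSpace.single none 1 with hν
  have hin : ∀ x y, inner ℝ ν (vform A h x y) = A x y := by
    intro x y
    rw [hν, EuclideanSpace.inner_single_left, conj_trivial, one_mul]
    rfl
  have hs : SecondForm (vform A h) := by
    refine ⟨fun x y => ?_, fun x x' y => ?_, fun t x y => ?_⟩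
    · unfold vform
      congr 1
      funext o
      cases o with
      | none => exact hA.symm x y
      | some k => exact (hh k).symm x y
    · ext o
      cases o with
      | none => exact hA.add x x' y
      | some k => exact (hh k).add x x' y
    · ext o
      cases o with
      | none => exact hA.smul t x y
      | some k => exact (hh k).smul t x y
  have hcon : Conical (vform A h) ν := by
    refine ⟨by rw [hν]; simp, fun x => ?_⟩
    rw [hin]
    have h1 : ‖vform A h x x - A x x • ν‖ ^ 2 ≤ (1 / 24 * A x x) ^ 2 := by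
      rw [EuclideanSpace.norm_sq_eq, Fintype.sum_option]
      have h2 : (vform A h x x - A x x • ν) none = 0 := by
        simp [vform, hν]
      have h3 : ∀ k, (vform A h x x - A x x • ν) (some k) = h k x x := by
        intro k
        simp [vform, hν]
      rw [h2]
      simp only [h3, Real.norm_eq_abs, sq_abs, abs_zero]
      have h4 := hc x
      calc (0 : ℝ) ^ 2 + ∑ k, h k x x ^ 2 ≤ 0 ^ 2 + (A x x / 24) ^ 2 := by gcongr
        _ = (1 / 24 * A x x) ^ 2 := by ring
    exact le_of_sq_le_sq h1 (by have := hA0 x; positivity)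
  have h1 := cone_squares e hs hcon
    (T := fun x y z w => - ∑ k, sq (ξ k) (η k) x y z w) ⟨q, ξ, η, fun _ _ _ _ => rfl⟩
  simp only [hin] at h1
  have h2 : addT (negT (extR (vform A h))) (fun x y z w => - ∑ k, sq (ξ k) (η k) x y z w) = R := by
    funext x y z w
    simp only [addT, negT, extR, vform_inner, hR, kn, Finset.sum_sub_distrib]
    ring
  rw [h2] at h1
  exact h1

theorem gram_round (e : OrthonormalBasis (Fin m × Bool) ℝ V) {κ : ℝ} (hκ : 0 ≤ κ) :
    (Matrix.of fun i j => Real.sqrt κ * inner ℝ (e i) (e j)).det * roundGB m 1 = roundGB m κ := by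
  have h1 : (Matrix.of fun i j => Real.sqrt κ * inner ℝ (e i) (e j)) =
      Real.sqrt κ • (1 : Matrix (Fin m × Bool) (Fin m × Bool) ℝ) := by
    ext i j
    rw [Matrix.smul_apply, Matrix.of_apply, smul_eq_mul, Matrix.one_apply,
      orthonormal_iff_ite.1 e.orthonormal]
  rw [h1, Matrix.det_smul, Matrix.det_one, mul_one, Fintype.card_prod, Fintype.card_fin,
    Fintype.card_bool, mul_comm m 2, pow_mul, Real.sq_sqrt hκ]
  unfold roundGB
  ring

/-- The bound when the axis is the metric. -/
theorem narrow_bound_round (e : OrthonormalBasis (Fin m × Bool) ℝ V) {κ : ℝ} (hκ : 0 ≤ κ)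
    {R : V → V → V → V → ℝ}
    (hR : NarrowCone (fun x y => Real.sqrt κ * inner ℝ x y) R) :
    1 / 2 * (4 / 9) ^ m * roundGB m κ ≤ (-1) ^ m * gbc e R := by
  have h1 := narrow_bound e hR
  rwa [gram_round e hκ] at h1

theorem unit_comp (e : OrthonormalBasis (Fin m × Bool) ℝ V) (i j k l : Fin m × Bool) :
    unitT (e i) (e j) (e k) (e l) = kd i k * kd j l - kd i l * kd j k := by
  have h1 : ∀ i j, inner ℝ (e i) (e j) = kd i j := fun i j => by
    rw [orthonormal_iff_ite.1 e.orthonormal]
    rfl
  unfold unitT
  rw [h1, h1, h1, h1]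

theorem comp_of {R : V → V → V → V → ℝ} (hR : AlgCurv R)
    (e : OrthonormalBasis (Fin m × Bool) ℝ V) :
    Comp (fun i j k l => R (e i) (e j) (e k) (e l)) where
  a1 i j k l := hR.anti _ _ _ _
  a2 i j k l := by rw [← hR.pair, hR.anti, hR.pair]
  pr i j k l := hR.pair _ _ _ _
  bi i j k l := by
    have h1 := hR.bianchi (e j) (e k) (e l) (e i)
    have h2 : ∀ a b c d, R a b c d = - R d c a b := by
      intro a b c d
      rw [hR.anti c d a b, neg_neg, hR.pair]
    rw [h2 (e j), h2 (e k), h2 (e l)] at h1
    linarith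

theorem biform_sub {K L : V → V → V → V → ℝ} (hK : BiForm K) (hL : BiForm L) :
    BiForm (fun x y z w => K x y z w - L x y z w) where
  add x x' y z w := by rw [hK.add, hL.add]; ring
  smul t x y z w := by rw [hK.smul, hL.smul]; ring
  anti x y z w := by rw [hK.anti, hL.anti]; ring
  pair x y z w := by rw [hK.pair, hL.pair]

theorem biform_sum {n : ℕ} {K : Fin n → V → V → V → V → ℝ} (hK : ∀ k, BiForm (K k)) :
    BiForm (fun x y z w => ∑ k, K k x y z w) where
  add x x' y z w := by simp only [(hK _).add, Finset.sum_add_distrib]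
  smul t x y z w := by simp only [(hK _).smul, Finset.mul_sum]
  anti x y z w := by simp only [(hK _).anti x y z w, Finset.sum_neg_distrib]
  pair x y z w := by simp only [(hK _).pair x y z w]

theorem biform_neg_add {K L : V → V → V → V → ℝ} (hK : BiForm K) (hL : BiForm L) :
    BiForm (fun x y z w => -(K x y z w + L x y z w)) where
  add x x' y z w := by rw [hK.add, hL.add]; ring
  smul t x y z w := by rw [hK.smul, hL.smul]; ring
  anti x y z w := by rw [hK.anti, hL.anti]; ring
  pair x y z w := by rw [hK.pair, hL.pair]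

theorem metric_form {s : ℝ} : SymForm (fun x y : V => s * inner ℝ x y) where
  symm x y := by rw [real_inner_comm]
  add x x' y := by rw [inner_add_left]; ring
  smul t x y := by rw [inner_smul_left, conj_trivial]; ring

/-- the form with given components -/
noncomputable def cform (e : OrthonormalBasis (Fin m × Bool) ℝ V)
    (h : Fin m × Bool → Fin m × Bool → ℝ) (x y : V) : ℝ :=
  ∑ i, ∑ j, h i j * (e.repr x i * e.repr y j)

theorem cform_sym (e : OrthonormalBasis (Fin m × Bool) ℝ V)
    {h : Fin m × Bool → Fin m × Bool → ℝ} (hh : ∀ i j, h i j = h j i) : SymForm (cform e h) where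
  symm x y := by
    unfold cform
    rw [Finset.sum_comm]
    refine Finset.sum_congr rfl fun i _ => Finset.sum_congr rfl fun j _ => ?_
    rw [hh j i]
    ring
  add x x' y := by
    unfold cform
    rw [← Finset.sum_add_distrib]
    refine Finset.sum_congr rfl fun i _ => ?_
    rw [← Finset.sum_add_distrib]
    refine Finset.sum_congr rfl fun j _ => ?_
    rw [map_add, PiLp.add_apply]
    ring
  smul t x y := by
    unfold cform
    rw [Finset.mul_sum]
    refine Finset.sum_congr rfl fun i _ => ?_
    rw [Finset.mul_sum]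
    refine Finset.sum_congr rfl fun j _ => ?_
    rw [map_smul, PiLp.smul_apply, smul_eq_mul]
    ring

theorem cform_basis (e : OrthonormalBasis (Fin m × Bool) ℝ V)
    (h : Fin m × Bool → Fin m × Bool → ℝ) (i j : Fin m × Bool) :
    cform e h (e i) (e j) = h i j := by
  unfold cform
  simp only [OrthonormalBasis.repr_self, EuclideanSpace.single_apply]
  simp

theorem cform_diag (e : OrthonormalBasis (Fin m × Bool) ℝ V)
    (h : Fin m × Bool → Fin m × Bool → ℝ) (x : V) :
    cform e h x x = qf h (e.repr x) := rfl

/-- **Tensors near constant curvature in the sense of the curvature operator of the second kind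
belong to the class.** -/
theorem second_cone (e : OrthonormalBasis (Fin m × Bool) ℝ V) {R : V → V → V → V → ℝ}
    (hR : AlgCurv R) {κ : ℝ} (hκ : 0 ≤ κ) (h : SecondBound e R κ) :
    NarrowCone (fun x y => Real.sqrt κ * inner ℝ x y) R := by
  obtain ⟨n, g, hg, hq, hr⟩ := decompose (comp_of hR e) (κ := κ) (t := 1 / 576) (by
    intro a ha
    have h1 := h a ha
    have h2 : secondKind e (fun x y z w => R x y z w + κ * unitT x y z w) a =
        sec (exc (fun i j k l => R (e i) (e j) (e k) (e l)) κ) a := by
      unfold secondKind sec quad exc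
      simp only [unit_comp]
    rw [h2] at h1
    refine h1.trans (le_of_eq ?_)
    ring)
  refine ⟨metric_form, fun x => ?_, n, fun q => cform e (g q), 0, Fin.elim0, Fin.elim0,
    fun k => cform_sym e (hg k), fun x => ?_, ?_⟩
  · show 0 ≤ Real.sqrt κ * inner ℝ x x
    rw [real_inner_self_eq_norm_sq]
    positivity
  · show ∑ k, cform e (g k) x x ^ 2 ≤ (Real.sqrt κ * inner ℝ x x / 24) ^ 2
    simp only [cform_diag]
    rw [hq (e.repr x), LinearIsometryEquiv.norm_map, real_inner_self_eq_norm_sq]
    have h1 := Real.sq_sqrt hκ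
    refine le_of_eq ?_
    rw [div_pow, mul_pow, h1]
    ring
  · intro x y z w
    have hK : BiForm (fun x y z w => -(kn (fun x y : V => Real.sqrt κ * inner ℝ x y) x y z w +
        ∑ k, kn (cform e (g k)) x y z w)) :=
      biform_neg_add (biform_kn metric_form) (biform_sum fun k => biform_kn (cform_sym e (hg k)))
    have h1 := biform_zero e (biform_sub (AlgCurv.bi hR) hK) (fun i j k l => ?_) x y z w
    · rw [Fin.sum_univ_zero, add_zero]
      linarith
    · have h2 : ∀ i j, inner ℝ (e i) (e j) = kd i j := fun i j => by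
        rw [orthonormal_iff_ite.1 e.orthonormal]
        rfl
      simp only [kn, cform_basis, h2, Finset.sum_sub_distrib]
      rw [hr i j k l]
      have h3 := Real.mul_self_sqrt hκ
      linear_combination (kd i k * kd j l - kd i l * kd j k) * h3

/-- **The bound for the curvature operator of the second kind.** -/
theorem second_bound (e : OrthonormalBasis (Fin m × Bool) ℝ V) {R : V → V → V → V → ℝ}
    (hR : AlgCurv R) {κ : ℝ} (hκ : 0 ≤ κ) (h : SecondBound e R κ) :
    1 / 2 * (4 / 9) ^ m * roundGB m κ ≤ (-1) ^ m * gbc e R :=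
  narrow_bound_round e hκ (second_cone e hR hκ h)

end cls

end Pool.Agent.H783.Hopf
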