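import Pool.Agent.H783.Hopf.Main

/-!
# Change of basis; positive semidefinite axis
-/

set_option autoImplicit false

namespace Pool.Agent.H783.Hopf

open Finset MeasureTheory Metric
open Pool.Agent.W666.GB (sn MD Yf)

open scoped MatrixOrder in
theorem exists_root {J : Type} [Fintype J] [DecidableEq J] {A : Matrix J J ℝ}
    (hA : A.PosSemidef) : ∃ P : Matrix J J ℝ, A = P.transpose * P := by
  obtain ⟨P, hP⟩ := CStarAlgebra.nonneg_iff_eq_star_mul_self.mp hA.nonneg
  refine ⟨P, ?_⟩
  rw [hP, Matrix.star_eq_conjTranspose, Matrix.conjTranspose_eq_transpose_of_trivial]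

section

variable {J : Type} [Fintype J]

theorem qf_eq (M : J → J → ℝ) (x : EuclideanSpace ℝ J) :
    qf M x = (x : J → ℝ) ⬝ᵥ (Matrix.mulVec (Matrix.of M) (x : J → ℝ)) := by
  unfold qf
  simp only [dotProduct, Matrix.mulVec, Matrix.of_apply, Finset.mul_sum]
  refine Finset.sum_congr rfl fun i _ => Finset.sum_congr rfl fun j _ => ?_
  ring

/-- the quadratic form in another basis -/
theorem qf_conj (M : Matrix J J ℝ) (Q : Matrix J J ℝ) (x : EuclideanSpace ℝ J) :
    qf (fun i j => (Q.transpose * M * Q) i j) x =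
      qf (fun i j => M i j) (WithLp.toLp 2 (Q.mulVec (x : J → ℝ))) := by
  rw [qf_eq, qf_eq]
  have h1 : (Matrix.of fun i j => (Q.transpose * M * Q) i j) = Q.transpose * M * Q := rfl
  have h2 : (Matrix.of fun i j => M i j) = M := rfl
  rw [h1, h2]
  simp only [← Matrix.mulVec_mulVec, Matrix.dotProduct_mulVec, Matrix.vecMul_transpose]

variable [DecidableEq J]

theorem qf_one (x : EuclideanSpace ℝ J) : qf (fun i j => (1 : Matrix J J ℝ) i j) x = ‖x‖ ^ 2 := by
  rw [EuclideanSpace.norm_sq_eq]
  unfold qf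
  refine Finset.sum_congr rfl fun i _ => ?_
  rw [Finset.sum_eq_single i]
  · simp
    ring
  · intro j _ hj
    simp [Matrix.one_apply, Ne.symm hj]
  · simp

theorem psd_of_qf {A : J → J → ℝ} (hs : ∀ i j, A i j = A j i)
    (hA : ∀ x : EuclideanSpace ℝ J, 0 ≤ qf A x) : (Matrix.of A).PosSemidef := by
  refine Matrix.PosSemidef.of_dotProduct_mulVec_nonneg ?_ fun x => ?_
  · ext i j
    simp [hs i j]
  · have := hA (WithLp.toLp 2 x)
    rw [qf_eq] at this
    simpa using this

theorem pd_of_qf {A : J → J → ℝ} (hs : ∀ i j, A i j = A j i)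
    (hA : ∀ x : EuclideanSpace ℝ J, x ≠ 0 → 0 < qf A x) : (Matrix.of A).PosDef := by
  refine Matrix.PosDef.of_dotProduct_mulVec_pos ?_ fun x hx => ?_
  · ext i j
    simp [hs i j]
  · have := hA (WithLp.toLp 2 x) (by simpa using hx)
    rw [qf_eq] at this
    simpa using this

end

section cone

variable {K : Type} [Fintype K] [DecidableEq K] {m : ℕ}

/-- the family with the axis `A` -/
def bb (A : Fin m × Bool → Fin m × Bool → ℝ) (h : K → Fin m × Bool → Fin m × Bool → ℝ)
    (o : Option K) (i j : Fin m × Bool) : ℝ :=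
  o.elim (A i j) fun k => h k i j

theorem Yf_posdef (hm : 1 ≤ m) (A : Fin m × Bool → Fin m × Bool → ℝ)
    (h : K → Fin m × Bool → Fin m × Bool → ℝ) (hAs : ∀ i j, A i j = A j i)
    (hs : ∀ k i j, h k i j = h k j i)
    (hA : ∀ x : EuclideanSpace ℝ (Fin m × Bool), x ≠ 0 → 0 < qf A x)
    (hb : ∀ x : EuclideanSpace ℝ (Fin m × Bool), ∑ k, qf (h k) x ^ 2 ≤ 1 / 576 * qf A x ^ 2) :
    (2 * m).factorial * ((Matrix.of A).det * (1 / 2 * (4 / 9) ^ m)) ≤
      Yf (fun a b c d => ∑ k, bb A h k a b * bb A h k c d) := by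
  have hpd := pd_of_qf hAs hA
  obtain ⟨P, hP⟩ := exists_root hpd.posSemidef
  have hdA : (Matrix.of A).det = P.det ^ 2 := by
    rw [hP, Matrix.det_mul, Matrix.det_transpose, sq]
  have hdet0 : P.det ≠ 0 := by
    intro h0
    have := hpd.det_pos
    rw [hdA, h0] at this
    simp at this
  have hu : IsUnit P.det := isUnit_iff_ne_zero.mpr hdet0
  set Q := P⁻¹ with hQ
  have hPQ : P * Q = 1 := Matrix.mul_nonsing_inv P hu
  have hQP : Q * P = 1 := Matrix.nonsing_inv_mul P hu
  have hQP' : P.transpose * Q.transpose = 1 := by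
    rw [← Matrix.transpose_mul, hQP, Matrix.transpose_one]
  have hPQ' : Q.transpose * P.transpose = 1 := by
    rw [← Matrix.transpose_mul, hPQ, Matrix.transpose_one]
  set h' : K → Fin m × Bool → Fin m × Bool → ℝ :=
    fun k i j => (Q.transpose * (Matrix.of (h k)) * Q) i j with hh'
  have hsym' : ∀ k i j, h' k i j = h' k j i := by
    intro k i j
    have hk : (Matrix.of (h k)).transpose = Matrix.of (h k) := by
      ext i j
      exact hs k j i
    have h1 : (Q.transpose * (Matrix.of (h k)) * Q).transpose =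
        Q.transpose * (Matrix.of (h k)) * Q := by
      rw [Matrix.transpose_mul, Matrix.transpose_mul, Matrix.transpose_transpose, hk,
        Matrix.mul_assoc]
    have h2 := congrFun (congrFun h1 j) i
    exact h2
  refine Yf_conical hm (bb A h) h' hsym' (by rw [hdA]; positivity) ?_ ?_
  · intro ζ
    have h1 : (Matrix.of fun i j => ∑ k, ζ k * bb A h k i j) =
        P.transpose * (Matrix.of fun i j => ζ none * (if i = j then 1 else 0) +
          ∑ k, ζ (some k) * h' k i j) * P := by
      have h2 : (Matrix.of fun i j => ζ none * (if i = j then 1 else 0) +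
          ∑ k, ζ (some k) * h' k i j) = ζ none • (1 : Matrix _ _ ℝ) +
          ∑ k, ζ (some k) • (Q.transpose * (Matrix.of (h k)) * Q) := by
        ext i j
        simp only [Matrix.of_apply, Matrix.add_apply, Matrix.smul_apply, Matrix.one_apply,
          Matrix.sum_apply, smul_eq_mul, hh']
      have h3 : (Matrix.of fun i j => ∑ k, ζ k * bb A h k i j) =
          ζ none • Matrix.of A + ∑ k, ζ (some k) • Matrix.of (h k) := by
        ext i j
        simp only [Matrix.of_apply, Matrix.add_apply, Matrix.smul_apply,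
          Matrix.sum_apply, smul_eq_mul, Fintype.sum_option, bb, Option.elim]
      rw [h2, h3, Matrix.mul_add, Matrix.add_mul, Matrix.mul_smul, Matrix.smul_mul,
        Matrix.mul_one, ← hP, Matrix.mul_sum, Matrix.sum_mul]
      congr 1
      refine Finset.sum_congr rfl fun k _ => ?_
      rw [Matrix.mul_smul, Matrix.smul_mul]
      congr 1
      calc Matrix.of (h k) = (P.transpose * Q.transpose) * Matrix.of (h k) * (Q * P) := by
            rw [hQP', hQP, Matrix.one_mul, Matrix.mul_one]
        _ = P.transpose * (Q.transpose * Matrix.of (h k) * Q) * P := by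
            simp only [Matrix.mul_assoc]
    rw [h1, Matrix.det_mul, Matrix.det_mul, Matrix.det_transpose, hdA]
    ring
  · intro x
    set y : EuclideanSpace ℝ (Fin m × Bool) := WithLp.toLp 2 (Q.mulVec (x : Fin m × Bool → ℝ))
      with hy
    have h1 : ∀ k, qf (h' k) x = qf (h k) y := fun k => qf_conj (Matrix.of (h k)) Q x
    have h2 : qf A y = ‖x‖ ^ 2 := by
      have h3 := qf_conj (Matrix.of A) Q x
      have h4 : (fun i j => (Q.transpose * Matrix.of A * Q) i j) =
          fun i j => (1 : Matrix (Fin m × Bool) (Fin m × Bool) ℝ) i j := by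
        have h5 : Q.transpose * Matrix.of A * Q = 1 := by
          rw [hP]
          calc Q.transpose * (P.transpose * P) * Q = (Q.transpose * P.transpose) * (P * Q) := by
                simp only [Matrix.mul_assoc]
            _ = 1 := by rw [hPQ', hPQ, Matrix.one_mul]
        rw [h5]
      rw [h4, qf_one] at h3
      exact h3.symm
    simp only [h1]
    have h3 := hb y
    rw [h2] at h3
    calc ∑ k, qf (h k) y ^ 2 ≤ 1 / 576 * (‖x‖ ^ 2) ^ 2 := h3
      _ = 1 / 576 * ‖x‖ ^ 4 := by ring

/-- **The double alternating form with a positive semidefinite axis.** -/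
theorem Yf_cone (hm : 1 ≤ m) (A : Fin m × Bool → Fin m × Bool → ℝ)
    (h : K → Fin m × Bool → Fin m × Bool → ℝ) (hAs : ∀ i j, A i j = A j i)
    (hs : ∀ k i j, h k i j = h k j i)
    (hA : ∀ x : EuclideanSpace ℝ (Fin m × Bool), 0 ≤ qf A x)
    (hb : ∀ x : EuclideanSpace ℝ (Fin m × Bool), ∑ k, qf (h k) x ^ 2 ≤ 1 / 576 * qf A x ^ 2) :
    (2 * m).factorial * ((Matrix.of A).det * (1 / 2 * (4 / 9) ^ m)) ≤
      Yf (fun a b c d => ∑ k, bb A h k a b * bb A h k c d) := by
  set Aδ : ℝ → Fin m × Bool → Fin m × Bool → ℝ :=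
    fun δ i j => A i j + δ * (if i = j then 1 else 0) with hAδ
  have hq : ∀ (δ : ℝ) (x : EuclideanSpace ℝ (Fin m × Bool)),
      qf (Aδ δ) x = qf A x + δ * ‖x‖ ^ 2 := by
    intro δ x
    rw [← qf_one]
    unfold qf
    simp only [hAδ, Finset.mul_sum, ← Finset.sum_add_distrib]
    refine Finset.sum_congr rfl fun i _ => Finset.sum_congr rfl fun j _ => ?_
    simp only [Matrix.one_apply]
    ring
  have key : ∀ δ : ℝ, 0 < δ →
      (2 * m).factorial * ((Matrix.of (Aδ δ)).det * (1 / 2 * (4 / 9) ^ m)) ≤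
        Yf (fun a b c d => ∑ k, bb (Aδ δ) h k a b * bb (Aδ δ) h k c d) := by
    intro δ hδ
    refine Yf_posdef hm (Aδ δ) h ?_ hs ?_ ?_
    · intro i j
      simp only [hAδ, hAs i j, eq_comm]
    · intro x hx
      rw [hq]
      have h1 := hA x
      have h2 : 0 < ‖x‖ := norm_pos_iff.mpr hx
      positivity
    · intro x
      refine (hb x).trans ?_
      rw [hq]
      have h1 := hA x
      have h2 : 0 ≤ δ * ‖x‖ ^ 2 := by positivity
      nlinarith
  have hc1 : Continuous fun δ : ℝ =>
      (2 * m).factorial * ((Matrix.of (Aδ δ)).det * (1 / 2 * (4 / 9 : ℝ) ^ m)) := by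
    refine continuous_const.mul (Continuous.mul ?_ continuous_const)
    apply Continuous.matrix_det
    refine continuous_matrix fun i j => ?_
    simp only [hAδ, Matrix.of_apply]
    fun_prop
  have hc2 : Continuous fun δ : ℝ =>
      Yf (fun a b c d => ∑ k, bb (Aδ δ) h k a b * bb (Aδ δ) h k c d) := by
    unfold Yf
    refine continuous_finset_sum _ fun π _ => continuous_finset_sum _ fun π' _ => ?_
    refine continuous_const.mul (continuous_finset_prod _ fun b _ => ?_)
    refine continuous_finset_sum _ fun k _ => ?_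
    cases k with
    | none =>
      simp only [bb, Option.elim, hAδ]
      fun_prop
    | some k =>
      simp only [bb, Option.elim]
      fun_prop
  have hlim : ∀ᶠ δ in nhdsWithin (0 : ℝ) (Set.Ioi 0),
      (2 * m).factorial * ((Matrix.of (Aδ δ)).det * (1 / 2 * (4 / 9 : ℝ) ^ m)) ≤
        Yf (fun a b c d => ∑ k, bb (Aδ δ) h k a b * bb (Aδ δ) h k c d) := by
    filter_upwards [self_mem_nhdsWithin] with δ hδ
    exact key δ hδ
  have hfin := le_of_tendsto_of_tendsto
    ((hc1.tendsto 0).mono_left nhdsWithin_le_nhds)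
    ((hc2.tendsto 0).mono_left nhdsWithin_le_nhds) hlim
  have h0 : Aδ 0 = A := by
    funext i j
    simp [hAδ]
  rw [h0] at hfin
  exact hfin

end cone

end Pool.Agent.H783.Hopf
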