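import Mathlib

/-!
# A lower bound for `det (t + B)`, `B` symmetric of even size

`det (t + B) ≥ (2/3)^(n-1) t^n - (3/2) (2 b)^n`, where `b` bounds the eigenvalues of `B`.
-/

set_option autoImplicit false

namespace Pool.Agent.H783.Hopf

open Finset Polynomial

/-- the convexity inequality -/
theorem conv_ineq {n : ℕ} (hn : 1 ≤ n) {x y : ℝ} (hx : 0 ≤ x) (hy : 0 ≤ y) :
    (2 / 3 : ℝ) ^ (n - 1) * (x + y) ^ n ≤ x ^ n + 2 ^ (n - 1) * y ^ n := by
  have hx1 : (3 / 2 * x : ℝ) ∈ Set.Ici (0 : ℝ) := by simp only [Set.mem_Ici]; positivity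
  have hy1 : (3 * y : ℝ) ∈ Set.Ici (0 : ℝ) := by simp only [Set.mem_Ici]; positivity
  have h := (convexOn_pow n).2 hx1 hy1 (by norm_num : (0 : ℝ) ≤ 2 / 3)
    (by norm_num : (0 : ℝ) ≤ 1 / 3) (by norm_num)
  simp only [smul_eq_mul] at h
  have h1 : (2 / 3 : ℝ) * (3 / 2 * x) + 1 / 3 * (3 * y) = x + y := by ring
  rw [h1] at h
  obtain ⟨k, rfl⟩ : ∃ k, n = k + 1 := ⟨n - 1, by omega⟩
  simp only [Nat.add_sub_cancel]
  calc (2 / 3 : ℝ) ^ k * (x + y) ^ (k + 1)
      ≤ (2 / 3 : ℝ) ^ k * (2 / 3 * (3 / 2 * x) ^ (k + 1) + 1 / 3 * (3 * y) ^ (k + 1)) :=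
        mul_le_mul_of_nonneg_left h (by positivity)
    _ = x ^ (k + 1) + 2 ^ k * y ^ (k + 1) := by
        rw [mul_pow (3 / 2 : ℝ) x, mul_pow (3 : ℝ) y, mul_add]
        congr 1
        · have : (2 / 3 : ℝ) ^ k * (2 / 3 * ((3 / 2) ^ (k + 1) * x ^ (k + 1))) =
              ((2 / 3) ^ (k + 1) * (3 / 2) ^ (k + 1)) * x ^ (k + 1) := by ring
          rw [this, ← mul_pow]
          norm_num
        · have : (2 / 3 : ℝ) ^ k * (1 / 3 * (3 ^ (k + 1) * y ^ (k + 1))) =
              ((2 / 3) ^ k * 3 ^ k) * y ^ (k + 1) := by ring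
          rw [this, ← mul_pow]
          norm_num

/-- the scalar inequality for a product of an even number of factors -/
theorem prod_ineq {J : Type} [Fintype J] {m : ℕ} (hm : 1 ≤ m) (hJ : Fintype.card J = 2 * m)
    (lam : J → ℝ) {b : ℝ} (hb : 0 ≤ b) (h : ∀ j, |lam j| ≤ b) (t : ℝ) :
    (2 / 3 : ℝ) ^ (2 * m - 1) * (t ^ 2) ^ m - 3 / 2 * 2 ^ (2 * m) * (b ^ 2) ^ m ≤
      ∏ j, (t - lam j) := by
  have ht2 : (t ^ 2) ^ m = |t| ^ (2 * m) := by rw [← sq_abs, ← pow_mul]
  have hb2 : (b ^ 2) ^ m = b ^ (2 * m) := by rw [← pow_mul]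
  rw [ht2, hb2]
  have hpow : (2 : ℝ) ^ (2 * m) = 2 * 2 ^ (2 * m - 1) := by
    rw [← pow_succ', Nat.sub_add_cancel (by omega)]
  have h23 : (2 / 3 : ℝ) ^ (2 * m - 1) ≤ 2 ^ (2 * m - 1) :=
    pow_le_pow_left₀ (by norm_num) (by norm_num) _
  by_cases hc : b ≤ |t|
  · -- all factors have the sign of `t`
    have hprod : (|t| - b) ^ (2 * m) ≤ ∏ j, (t - lam j) := by
      rcases le_or_gt 0 t with h0 | h0
      · rw [abs_of_nonneg h0] at hc ⊢
        calc (t - b) ^ (2 * m) = ∏ _j : J, (t - b) := by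
              rw [Finset.prod_const, Finset.card_univ, hJ]
          _ ≤ ∏ j, (t - lam j) := by
              refine Finset.prod_le_prod (fun j _ => by linarith) fun j _ => ?_
              linarith [(abs_le.1 (h j)).2]
      · rw [abs_of_neg h0] at hc ⊢
        have h1 : ∏ j, (t - lam j) = ∏ j, (lam j - t) := by
          have : ∀ j, t - lam j = (-1) * (lam j - t) := fun j => by ring
          rw [Finset.prod_congr rfl fun j _ => this j, Finset.prod_mul_distrib,
            Finset.prod_const, Finset.card_univ, hJ, pow_mul]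
          norm_num
        rw [h1]
        calc (-t - b) ^ (2 * m) = ∏ _j : J, (-t - b) := by
              rw [Finset.prod_const, Finset.card_univ, hJ]
          _ ≤ ∏ j, (lam j - t) := by
              refine Finset.prod_le_prod (fun j _ => by linarith) fun j _ => ?_
              linarith [(abs_le.1 (h j)).1]
    have h1 := conv_ineq (n := 2 * m) (by omega) (x := |t| - b) (y := b) (by linarith) hb
    rw [sub_add_cancel] at h1
    have h2 : (0 : ℝ) ≤ 2 ^ (2 * m - 1) * b ^ (2 * m) := by positivity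
    rw [hpow]
    nlinarith
  · push Not at hc
    have h1 : |∏ j, (t - lam j)| ≤ (2 * b) ^ (2 * m) := by
      rw [Finset.abs_prod]
      calc ∏ j, |t - lam j| ≤ ∏ _j : J, (2 * b) := by
            refine Finset.prod_le_prod (fun j _ => abs_nonneg _) fun j _ => ?_
            calc |t - lam j| ≤ |t| + |lam j| := abs_sub _ _
              _ ≤ 2 * b := by linarith [h j]
        _ = (2 * b) ^ (2 * m) := by rw [Finset.prod_const, Finset.card_univ, hJ]
    have h2 : |t| ^ (2 * m) ≤ b ^ (2 * m) := pow_le_pow_left₀ (abs_nonneg _) hc.le _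
    have h3 : -((2 * b) ^ (2 * m)) ≤ ∏ j, (t - lam j) := (abs_le.1 h1).1
    rw [mul_pow] at h3
    have h4 : (2 / 3 : ℝ) ^ (2 * m - 1) * |t| ^ (2 * m) ≤ 2 ^ (2 * m - 1) * b ^ (2 * m) :=
      mul_le_mul h23 h2 (by positivity) (by positivity)
    rw [hpow] at h3 ⊢
    nlinarith

end Pool.Agent.H783.Hopf
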