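import Pool.Agent.H783.Hopf.Class

/-!
# Einstein tensors
-/

set_option autoImplicit false
set_option linter.unusedSectionVars false
set_option linter.unusedSimpArgs false

namespace Pool.Agent.H783.Hopf

open Finset MeasureTheory
open Pool.Agent.W666.GB Pool.Agent.W669.HD
open Pool.Agent.Results.MP_5a30bb_gt.SubmanifoldsOfProducts (SecondForm extR sq)

section alg

variable {J : Type} [Fintype J] [DecidableEq J]

theorem sum_kd_right (f : J → ℝ) (i : J) : ∑ j, kd i j * f j = f i := by
  unfold kd
  simp

theorem quad_shift {c : J → J → J → J → ℝ} {ρ : ℝ} (h1 : ∀ k l, ∑ i, c i i k l = ρ * kd k l)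
    (h2 : ∀ i j, ∑ k, c i j k k = ρ * kd i j) {a : J → J → ℝ} (ha : ∑ i, a i i = 0) (s : ℝ) :
    quad c (fun i j => a i j + s * kd i j) = quad c a + s ^ 2 * ρ * Fintype.card J := by
  have e1 : ∀ i j k l, c i j k l * ((a i j + s * kd i j) * (a k l + s * kd k l)) =
      c i j k l * (a i j * a k l) + (s * (kd i j * (c i j k l * a k l)) +
        (s * (kd k l * (c i j k l * a i j)) + s ^ 2 * (kd i j * (kd k l * c i j k l)))) := by
    intro i j k l
    ring
  have e2 : ∑ i, ∑ j, ∑ k, ∑ l, kd i j * (c i j k l * a k l) = 0 := by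
    have h3 : ∀ i, ∑ j, ∑ k, ∑ l, kd i j * (c i j k l * a k l) =
        ∑ k, ∑ l, c i i k l * a k l := by
      intro i
      simp only [← Finset.mul_sum]
      exact sum_kd_right (fun j => ∑ k, ∑ l, c i j k l * a k l) i
    simp only [h3]
    rw [Finset.sum_comm]
    have h4 : ∀ k, ∑ i, ∑ l, c i i k l * a k l = ρ * a k k := by
      intro k
      rw [Finset.sum_comm]
      simp only [← Finset.sum_mul, h1, mul_assoc]
      rw [← Finset.mul_sum, sum_kd_right]
    simp only [h4]
    rw [← Finset.mul_sum, ha, mul_zero]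
  have e3 : ∑ i, ∑ j, ∑ k, ∑ l, kd k l * (c i j k l * a i j) = 0 := by
    have h3 : ∀ i j, ∑ k, ∑ l, kd k l * (c i j k l * a i j) = ρ * (kd i j * a i j) := by
      intro i j
      simp only [sum_kd_right]
      rw [← Finset.sum_mul, h2]
      ring
    simp only [h3]
    simp only [← Finset.mul_sum, sum_kd_right, ha, mul_zero]
  have e4 : ∑ i, ∑ j, ∑ k, ∑ l, kd i j * (kd k l * c i j k l) = ρ * Fintype.card J := by
    have h3 : ∀ i j, ∑ k, ∑ l, kd i j * (kd k l * c i j k l) = kd i j * (ρ * kd i j) := by
      intro i j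
      simp only [← Finset.mul_sum, sum_kd_right, h2]
    simp only [h3, sum_kd_right, kd_self, mul_one, Finset.sum_const, Finset.card_univ,
      nsmul_eq_mul]
    ring
  unfold quad
  simp only [e1, Finset.sum_add_distrib]
  simp only [← Finset.mul_sum] at e2 e3 e4 ⊢
  rw [e2, e3, e4]
  ring

end alg

section ein

variable {V : Type} [NormedAddCommGroup V] [InnerProductSpace ℝ V] {m : ℕ}

theorem einstein_second (e : OrthonormalBasis (Fin m × Bool) ℝ V) {R : V → V → V → V → ℝ}
    (hR : AlgCurv R) {κ : ℝ} (hκ : 0 ≤ κ) (h : EinsteinBound e R κ) : SecondBound e R κ := by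
  obtain ⟨hric, hs⟩ := h
  intro a ha
  have hr := comp_of hR e
  set r : Fin m × Bool → Fin m × Bool → Fin m × Bool → Fin m × Bool → ℝ :=
    fun i j k l => R (e i) (e j) (e k) (e l) with hrdef
  have hcard : (Fintype.card (Fin m × Bool) : ℝ) = 2 * m := by
    rw [Fintype.card_prod, Fintype.card_fin, Fintype.card_bool]
    push_cast
    ring
  have h2 : secondKind e (fun x y z w => R x y z w + κ * unitT x y z w) a =
      sec (exc r κ) a := by
    unfold secondKind sec quad exc
    simp only [unit_comp, hrdef]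
  rw [h2, exc_sec r κ ha]
  set s : ℝ := (∑ i, a i i) / (2 * m) with hsdef
  have htr : ∑ i, a i i = 2 * m * s := by
    rcases Nat.eq_zero_or_pos m with rfl | hm
    · simp
    · rw [hsdef]
      have : (m : ℝ) ≠ 0 := by positivity
      field_simp
  set b : Fin m × Bool → Fin m × Bool → ℝ := fun i j => a i j - s * kd i j with hb
  have hbs : ∀ i j, b i j = b j i := by
    intro i j
    simp only [hb]
    rw [ha i j, kd_comm i j]
  have hbt : ∑ i, b i i = 0 := by
    simp only [hb, kd_self, mul_one, Finset.sum_sub_distrib, Finset.sum_const, Finset.card_univ,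
      nsmul_eq_mul, hcard, htr]
    ring
  have hab : a = fun i j => b i j + s * kd i j := by
    funext i j
    simp only [hb]
    ring
  have h3 : sec r a = sec r b + s ^ 2 * (-((2 * m - 1) * κ)) * (2 * m) := by
    rw [hab]
    unfold sec
    rw [quad_shift (ρ := -((2 * m - 1) * κ)) ?_ ?_ hbt s, hcard]
    · intro k l
      have h4 := hric (e k) (e l)
      rw [orthonormal_iff_ite.1 e.orthonormal] at h4
      simp only [hrdef]
      rw [h4]
      unfold kd
      ring
    · intro i j
      have h4 := hric (e i) (e j)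
      rw [orthonormal_iff_ite.1 e.orthonormal] at h4
      have h5 : ∀ k, r i k j k = r k i k j := by
        intro k
        rw [hr.a1 k i j k, hr.a2 k i k j, neg_neg]
      simp only [h5]
      simp only [hrdef]
      rw [h4]
      unfold kd
      ring
  have h4 : ∑ i, ∑ j, a i j ^ 2 = ∑ i, ∑ j, b i j ^ 2 + 2 * m * s ^ 2 := by
    have h5 : ∀ i j, a i j ^ 2 = b i j ^ 2 + (2 * s * (kd i j * b i j) +
        s ^ 2 * (kd i j * kd i j)) := by
      intro i j
      rw [hab]
      ring
    simp only [h5, Finset.sum_add_distrib]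
    simp only [← Finset.mul_sum, sum_kd_right, hbt, kd_self, Finset.sum_const, Finset.card_univ,
      nsmul_eq_mul, hcard]
    ring
  have h6 := hs b hbs hbt
  have h7 : secondKind e R b = sec r b := rfl
  rw [h7] at h6
  have h8 : 0 ≤ ∑ i, ∑ j, b i j ^ 2 := by positivity
  rw [h3, h4, htr]
  have h9 : 0 ≤ κ / 576 * (2 * m * s ^ 2 + 1 / 2 * (2 * m * s) ^ 2) := by positivity
  nlinarith

end ein

end Pool.Agent.H783.Hopf

namespace Pool.Agent.H783.Hopf

open Finset MeasureTheory
open Pool.Agent.W666.GB Pool.Agent.W669.HD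
open Pool.Agent.Results.MP_5a30bb_gt.SubmanifoldsOfProducts (SecondForm extR sq)

section squares

variable {V : Type} [NormedAddCommGroup V] [InnerProductSpace ℝ V] {m : ℕ}

theorem sq_val (ξ η x y z w : V) : sq ξ η x y z w =
    (inner ℝ ξ x * inner ℝ η y - inner ℝ ξ y * inner ℝ η x) *
      (inner ℝ ξ z * inner ℝ η w - inner ℝ ξ w * inner ℝ η z) := rfl

theorem sq_curv (ξ η : V) : AlgCurv (sq ξ η) where
  add x x' y z w := by simp only [sq_val, inner_add_right]; ring
  smul t x y z w := by simp only [sq_val, inner_smul_right]; ring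
  anti x y z w := by simp only [sq_val]; ring
  pair x y z w := by simp only [sq_val]; ring
  bianchi x y z w := by simp only [sq_val]; ring

theorem curv_add_squares {R : V → V → V → V → ℝ} (hR : AlgCurv R) {q : ℕ} (ξ η : Fin q → V) :
    AlgCurv (fun x y z w => R x y z w + ∑ k, sq (ξ k) (η k) x y z w) where
  add x x' y z w := by
    simp only [hR.add, (sq_curv _ _).add, Finset.sum_add_distrib]
    ring
  smul t x y z w := by
    simp only [hR.smul, (sq_curv _ _).smul, ← Finset.mul_sum]
    ring
  anti x y z w := by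
    simp only [hR.anti x y z w, (sq_curv _ _).anti x y z w, Finset.sum_neg_distrib]
    ring
  pair x y z w := by
    simp only [hR.pair x y z w, (sq_curv _ _).pair x y z w]
  bianchi x y z w := by
    have h1 := hR.bianchi x y z w
    have h2 : ∑ k, sq (ξ k) (η k) x y z w + ∑ k, sq (ξ k) (η k) y z x w +
        ∑ k, sq (ξ k) (η k) z x y w = 0 := by
      rw [← Finset.sum_add_distrib, ← Finset.sum_add_distrib]
      exact Finset.sum_eq_zero fun k _ => (sq_curv _ _).bianchi x y z w
    linarith

theorem narrow_squares {A : V → V → ℝ} {R : V → V → V → V → ℝ} {q : ℕ} (ξ η : Fin q → V)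
    (h : NarrowCone A (fun x y z w => R x y z w + ∑ k, sq (ξ k) (η k) x y z w)) :
    NarrowCone A R := by
  obtain ⟨hA, hA0, n, g, p, ξ', η', hg, hc, hR⟩ := h
  refine ⟨hA, hA0, n, g, p + q, Fin.append ξ' ξ, Fin.append η' η, hg, hc, fun x y z w => ?_⟩
  have h1 := hR x y z w
  rw [Fin.sum_univ_add]
  simp only [Fin.append_left, Fin.append_right]
  linarith

end squares

section integrated

variable {M : Type} [MeasurableSpace M] {m : ℕ}

/-- the integrated form -/
theorem field_bound (μ : Measure M) (K : CurvField m M) (A : ∀ p, K.V p → K.V p → ℝ)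
    (h : ∀ p, NarrowCone (A p) (K.R p)) :
    0 ≤ (-1) ^ m * ∫ p, K.gb p ∂μ ∧ (Integrable K.gb μ →
      1 / 2 * (4 / 9) ^ m * ∫ p, (Matrix.of fun i j => A p (K.e p i) (K.e p j)).det *
        roundGB m 1 ∂μ ≤ (-1) ^ m * ∫ p, K.gb p ∂μ) := by
  have hb : ∀ p, 1 / 2 * (4 / 9) ^ m * ((Matrix.of fun i j => A p (K.e p i) (K.e p j)).det *
      roundGB m 1) ≤ (-1) ^ m * K.gb p := fun p => narrow_bound (K.e p) (h p)
  have hd : ∀ p, 0 ≤ (Matrix.of fun i j => A p (K.e p i) (K.e p j)).det := by
    intro p
    obtain ⟨hA, hA0, -⟩ := h p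
    refine (psd_of_qf (A := fun i j => A p (K.e p i) (K.e p j)) (fun i j => hA.symm _ _)
      fun x => ?_).det_nonneg
    have h1 : qf (fun i j => A p (K.e p i) (K.e p j)) x =
        A p (vec (K.e p) x) (vec (K.e p) x) := by
      have h2 : ∀ y, A p (vec (K.e p) x) y = ∑ i, x i * A p (K.e p i) y := by
        intro y
        let f : K.V p →ₗ[ℝ] ℝ :=
          { toFun := fun x => A p x y
            map_add' := fun a b => hA.add a b y
            map_smul' := fun t a => hA.smul t a y }
        have h3 : f (vec (K.e p) x) = ∑ i, x i * f (K.e p i) := by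
          unfold vec
          simp only [map_sum, map_smul, smul_eq_mul]
        exact h3
      rw [h2]
      unfold qf
      refine Finset.sum_congr rfl fun i _ => ?_
      rw [hA.symm, h2, Finset.mul_sum]
      refine Finset.sum_congr rfl fun j _ => ?_
      rw [hA.symm]
      ring
    rw [h1]
    exact hA0 _
  have h0 : ∀ p, 0 ≤ 1 / 2 * (4 / 9) ^ m *
      ((Matrix.of fun i j => A p (K.e p i) (K.e p j)).det * roundGB m 1) := by
    intro p
    have h1 := hd p
    have h2 : 0 ≤ roundGB m 1 := roundGB_nonneg zero_le_one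
    positivity
  rw [← integral_const_mul, ← integral_const_mul]
  refine ⟨integral_nonneg fun p => (h0 p).trans (hb p), fun hi => ?_⟩
  exact integral_mono_of_nonneg (Filter.Eventually.of_forall h0)
    (hi.const_mul _) (Filter.Eventually.of_forall hb)

end integrated

end Pool.Agent.H783.Hopf
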