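import Pool.Agent.H783.Hopf.Ball
import Pool.Agent.H783.Hopf.DetBound
import Pool.Graph.R_seed8.Y489.SM.Md

/-!
# The double alternating form of `∑ B_k ⊗ B_k` when `B_none` dominates
-/

set_option autoImplicit false

namespace Pool.Agent.H783.Hopf

open Finset MeasureTheory Metric
open Pool.Agent.Y489.SM (Sy FF FF_sy FF_poly Yf_sum pairs_nonneg)
open Pool.Agent.W666.GB (sn MD Yf)

section point

variable {J : Type} [Fintype J] [DecidableEq J]

/-- the constant of the pointwise inequality -/
noncomputable def gam (J : Type) [Fintype J] (m : ℕ) : ℝ := 3 * 16 ^ (2 * m) / vb J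

/-- the determinant of `t + h` from below -/
theorem det_lower {m : ℕ} (hm : 1 ≤ m) (hJ : Fintype.card J = 2 * m) (h : J → J → ℝ)
    (hs : ∀ i j, h i j = h j i) (t : ℝ) :
    (2 / 3 : ℝ) ^ (2 * m - 1) * (t ^ 2) ^ m -
        gam J m * ∫ x : EuclideanSpace ℝ J in ball 0 1, (qf h x ^ 2) ^ m ≤
      (Matrix.of fun i j => t * (if i = j then 1 else 0) + h i j).det := by
  set M : Matrix J J ℝ := Matrix.of fun i j => - h i j with hM
  have hH : M.IsHermitian := by
    ext i j
    simp [hM, hs i j]
  obtain ⟨lam, v, hq, hdet⟩ := spec M hH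
  have hne : Nonempty J := by
    rw [← Fintype.card_pos_iff]
    omega
  obtain ⟨k₀, hk⟩ : ∃ k₀, ∀ k, |lam k| ≤ |lam k₀| := by
    obtain ⟨k₀, _, hk⟩ := Finset.exists_max_image (univ : Finset J) (fun k => |lam k|)
      Finset.univ_nonempty
    exact ⟨k₀, fun k => hk k (Finset.mem_univ k)⟩
  have h1 := ball_lower hJ hq hk
  have h2 := prod_ineq hm hJ lam (abs_nonneg (lam k₀)) hk t
  have h3 : (Matrix.of fun i j => t * (if i = j then 1 else 0) + h i j) =
      Matrix.scalar J t - M := by
    ext i j
    by_cases hij : i = j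
    · subst hij
      simp [hM]
    · simp [hM, hij]
  rw [h3, hdet]
  have hqq : ∀ x : EuclideanSpace ℝ J, qf M x ^ 2 = qf h x ^ 2 := by
    intro x
    have : qf M x = - qf h x := by
      unfold qf
      rw [← Finset.sum_neg_distrib]
      refine Finset.sum_congr rfl fun i _ => ?_
      rw [← Finset.sum_neg_distrib]
      refine Finset.sum_congr rfl fun j _ => ?_
      simp [hM]
    rw [this]
    ring
  simp only [hqq] at h1
  rw [sq_abs] at h2
  have hv := vb_pos (J := J)
  have h4 : 3 / 2 * 2 ^ (2 * m) * (lam k₀ ^ 2) ^ m ≤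
      gam J m * ∫ x : EuclideanSpace ℝ J in ball 0 1, (qf h x ^ 2) ^ m := by
    have h5 : 3 / 2 * 2 ^ (2 * m) * (lam k₀ ^ 2) ^ m =
        gam J m * ((lam k₀ ^ 2) ^ m * (1 / 2 * (1 / 8) ^ (2 * m) * vb J)) := by
      unfold gam
      have h6 : (16 : ℝ) ^ (2 * m) = 2 ^ (2 * m) * 8 ^ (2 * m) := by
        rw [← mul_pow]
        norm_num
      have h7 : (1 / 8 : ℝ) ^ (2 * m) = 1 / 8 ^ (2 * m) := by
        rw [div_pow, one_pow]
      rw [h6, h7]
      field_simp
    rw [h5]
    refine mul_le_mul_of_nonneg_left h1 ?_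
    unfold gam
    positivity
  linarith

end point

section assembly

variable {K : Type} [Fintype K] [DecidableEq K] {m : ℕ}

/-- the functions of the ball integral -/
noncomputable def gfun (h : K → Fin m × Bool → Fin m × Bool → ℝ) (o : Option K)
    (x : EuclideanSpace ℝ (Fin m × Bool)) : ℝ :=
  o.elim 0 fun k => qf (h k) x

omit [Fintype K] [DecidableEq K] in
theorem gfun_cont (h : K → Fin m × Bool → Fin m × Bool → ℝ) (o : Option K) :
    Continuous (gfun h o) := by
  cases o with
  | none => exact continuous_const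
  | some k => exact qf_cont (h k)

/-- the ball integral of a product -/
noncomputable def gint (h : K → Fin m × Bool → Fin m × Bool → ℝ)
    (β : Fin m × Bool → Option K) : ℝ :=
  ∫ x : EuclideanSpace ℝ (Fin m × Bool) in ball 0 1, ∏ j, gfun h (β j) x

omit [DecidableEq K] in
theorem gint_poly (h : K → Fin m × Bool → Fin m × Bool → ℝ) (ζ : Option K → ℝ) :
    ∑ β : Fin m × Bool → Option K, (∏ j, ζ (β j)) * gint h β =
      ∫ x : EuclideanSpace ℝ (Fin m × Bool) in ball 0 1,
        (qf (fun i j => ∑ k, ζ (some k) * h k i j) x ^ 2) ^ m := by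
  have h1 : ∀ β : Fin m × Bool → Option K, (∏ j, ζ (β j)) * gint h β =
      ∫ x : EuclideanSpace ℝ (Fin m × Bool) in ball 0 1,
        ∏ j, (ζ (β j) * gfun h (β j) x) := by
    intro β
    rw [gint, ← integral_const_mul]
    refine integral_congr_ae (Filter.Eventually.of_forall fun x => ?_)
    simp only [Finset.prod_mul_distrib]
  rw [Finset.sum_congr rfl fun β _ => h1 β, ← integral_finset_sum]
  · refine integral_congr_ae (Filter.Eventually.of_forall fun x => ?_)
    beta_reduce
    have h2 : ∑ k, ζ k * gfun h k x = qf (fun i j => ∑ k, ζ (some k) * h k i j) x := by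
      rw [Fintype.sum_option]
      unfold qf
      simp only [gfun, Option.elim, mul_zero, zero_add, qf, Finset.mul_sum, Finset.sum_mul]
      rw [Finset.sum_comm]
      refine Finset.sum_congr rfl fun i _ => ?_
      rw [Finset.sum_comm]
      refine Finset.sum_congr rfl fun j _ => Finset.sum_congr rfl fun k _ => ?_
      ring
    rw [← Fintype.prod_sum (fun (_ : Fin m × Bool) (k : Option K) => ζ k * gfun h k x)]
    rw [Finset.prod_const, h2, Finset.card_univ, Fintype.card_prod, Fintype.card_fin,
      Fintype.card_bool, ← pow_mul, mul_comm m 2]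
  · intro β _
    apply int_ball
    refine continuous_finset_prod _ fun j _ => ?_
    exact continuous_const.mul (gfun_cont h _)

omit [DecidableEq K] in
theorem gint_diag (h : K → Fin m × Bool → Fin m × Bool → ℝ) :
    ∑ α : Fin m → Option K, gint h (fun x => α x.1) =
      ∫ x : EuclideanSpace ℝ (Fin m × Bool) in ball 0 1, (∑ k, qf (h k) x ^ 2) ^ m := by
  unfold gint
  rw [← integral_finset_sum]
  · refine integral_congr_ae (Filter.Eventually.of_forall fun x => ?_)
    beta_reduce
    have h1 : ∀ α : Fin m → Option K, ∏ j : Fin m × Bool, gfun h (α j.1) x =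
        ∏ b, gfun h (α b) x ^ 2 := by
      intro α
      rw [Fintype.prod_prod_type]
      refine Finset.prod_congr rfl fun b _ => ?_
      rw [Fintype.prod_bool]
      ring
    rw [Finset.sum_congr rfl fun α _ => h1 α,
      ← Fintype.prod_sum (fun (_ : Fin m) (k : Option K) => gfun h k x ^ 2),
      Finset.prod_const, Finset.card_univ, Fintype.card_fin, Fintype.sum_option]
    simp [gfun]
  · intro α _
    apply int_ball
    refine continuous_finset_prod _ fun j _ => ?_
    exact gfun_cont h _

/-- **The double alternating form of `∑ B_k ⊗ B_k` from below.** -/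
theorem Yf_conical (hm : 1 ≤ m) (B : Option K → Fin m × Bool → Fin m × Bool → ℝ)
    (h : K → Fin m × Bool → Fin m × Bool → ℝ) (hs : ∀ k i j, h k i j = h k j i) {D : ℝ}
    (hD : 0 ≤ D)
    (hdet : ∀ ζ : Option K → ℝ, (Matrix.of fun i j => ∑ k, ζ k * B k i j).det =
      D * (Matrix.of fun i j => ζ none * (if i = j then 1 else 0) +
        ∑ k, ζ (some k) * h k i j).det)
    (hb : ∀ x : EuclideanSpace ℝ (Fin m × Bool), ∑ k, qf (h k) x ^ 2 ≤ 1 / 576 * ‖x‖ ^ 4) :
    (2 * m).factorial * (D * (1 / 2 * (4 / 9) ^ m)) ≤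
      Yf (fun a b c d => ∑ k, B k a b * B k c d) := by
  classical
  have hcard : Fintype.card (Fin m × Bool) = 2 * m := by
    rw [Fintype.card_prod, Fintype.card_fin, Fintype.card_bool, mul_comm]
  set N : ℝ := ((2 * m).factorial : ℝ) with hN
  have hN0 : 0 ≤ N := Nat.cast_nonneg _
  set α₀ : ℝ := (2 / 3 : ℝ) ^ (2 * m - 1) with hα
  set γ : ℝ := gam (Fin m × Bool) m with hγ
  set F : (Fin m × Bool → Option K) → ℝ := fun β => FF (fun _ => 1) B β -
    N * (D * α₀) * (if ∀ j, β j = none then 1 else 0) + N * (D * γ) * gint h β with hF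
  have hsy : Sy F := by
    intro π β
    simp only [hF]
    rw [FF_sy (fun _ => 1) B π β]
    have h1 : (∀ j, β (π j) = none) ↔ ∀ j, β j = none :=
      ⟨fun h j => by simpa using h (π.symm j), fun h j => h (π j)⟩
    have h2 : gint h (fun j => β (π j)) = gint h β := by
      unfold gint
      refine integral_congr_ae (Filter.Eventually.of_forall fun x => ?_)
      exact Equiv.prod_comp π (fun j => gfun h (β j) x)
    simp only [h1, h2]
  have hpos : ∀ ζ : Option K → ℝ, 0 ≤ ∑ β : Fin m × Bool → Option K, (∏ j, ζ (β j)) * F β := by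
    intro ζ
    have h1 : ∑ β : Fin m × Bool → Option K, (∏ j, ζ (β j)) * F β =
        ∑ β : Fin m × Bool → Option K, (∏ j, ζ (β j)) * FF (fun _ => 1) B β -
        N * (D * α₀) * (∑ β : Fin m × Bool → Option K,
          (∏ j, ζ (β j)) * (if ∀ j, β j = none then 1 else 0)) +
        N * (D * γ) * ∑ β : Fin m × Bool → Option K, (∏ j, ζ (β j)) * gint h β := by
      rw [Finset.mul_sum, Finset.mul_sum, ← Finset.sum_sub_distrib, ← Finset.sum_add_distrib]
      refine Finset.sum_congr rfl fun β _ => ?_
      simp only [hF]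
      ring
    have h2 : ∑ β : Fin m × Bool → Option K,
          (∏ j, ζ (β j)) * (if ∀ j, β j = none then (1 : ℝ) else 0) = (ζ none ^ 2) ^ m := by
      rw [Finset.sum_eq_single (fun _ => none)]
      · simp only [Finset.prod_const, Finset.card_univ, hcard, implies_true, if_true, mul_one]
        rw [pow_mul]
      · intro β _ hβ
        rw [if_neg, mul_zero]
        intro hn
        exact hβ (funext hn)
      · intro hn
        exact absurd (Finset.mem_univ _) hn
    have h3 : (Matrix.det (Matrix.of fun i j =>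
        ∑ k, (ζ k : ℂ) * (1 : ℂ) * (B k i j : ℂ))).re =
        (Matrix.of fun i j => ∑ k, ζ k * B k i j).det := by
      have h4 : (Matrix.of fun i j => ∑ k, (ζ k : ℂ) * (1 : ℂ) * (B k i j : ℂ)) =
          (algebraMap ℝ ℂ).mapMatrix (Matrix.of fun i j => ∑ k, ζ k * B k i j) := by
        ext i j
        simp
      rw [h4, ← RingHom.map_det]
      simp
    rw [h1, h2, FF_poly, gint_poly, hcard, h3, hdet]
    have h5 := det_lower hm hcard (fun i j => ∑ k, ζ (some k) * h k i j)
      (fun i j => Finset.sum_congr rfl fun k _ => by rw [hs k i j]) (ζ none)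
    have h6 := mul_le_mul_of_nonneg_left h5 (mul_nonneg hN0 hD)
    have h7 : N * D * (α₀ * (ζ none ^ 2) ^ m - γ *
        ∫ x : EuclideanSpace ℝ (Fin m × Bool) in ball 0 1,
          (qf (fun i j => ∑ k, ζ (some k) * h k i j) x ^ 2) ^ m) ≤ _ := h6
    linarith
  have h5 := pairs_nonneg m F hsy hpos
  have h6 : ∑ α : Fin m → Option K, F (fun x => α x.1) =
      Yf (fun a b c d => ∑ k, B k a b * B k c d) - N * (D * α₀) +
      N * (D * γ) * ∫ x : EuclideanSpace ℝ (Fin m × Bool) in ball 0 1,
        (∑ k, qf (h k) x ^ 2) ^ m := by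
    have h7 : ∑ α : Fin m → Option K, (if ∀ j : Fin m × Bool, α j.1 = none then (1 : ℝ) else 0) =
        1 := by
      rw [Finset.sum_eq_single (fun _ => none)]
      · simp
      · intro β _ hβ
        rw [if_neg]
        intro hn
        exact hβ (funext fun b => hn (b, true))
      · intro hn
        exact absurd (Finset.mem_univ _) hn
    have h8 : Yf (fun a b c d => ∑ k, B k a b * B k c d) =
        ∑ α : Fin m → Option K, FF (fun _ => 1) B (fun x => α x.1) := by
      have h9 := Yf_sum (fun _ : Option K => (1 : ℝ)) B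
      simp only [one_mul] at h9
      rw [h9]
      refine Finset.sum_congr rfl fun α _ => ?_
      unfold FF
      simp
    rw [h8, ← gint_diag, Finset.mul_sum]
    simp only [hF, Finset.sum_add_distrib, Finset.sum_sub_distrib, ← Finset.mul_sum, h7, mul_one]
  rw [h6] at h5
  -- the ball integral from above
  have h9 : ∫ x : EuclideanSpace ℝ (Fin m × Bool) in ball 0 1, (∑ k, qf (h k) x ^ 2) ^ m ≤
      (1 / 576) ^ m * (vb (Fin m × Bool) / 3) := by
    rw [← ball_norm hm hcard, ← integral_const_mul]
    refine setIntegral_mono_on (int_ball ?_) (int_ball ?_) measurableSet_ball fun x _ => ?_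
    · refine Continuous.pow ?_ m
      exact continuous_finset_sum _ fun k _ => (qf_cont (h k)).pow 2
    · fun_prop
    · rw [← mul_pow]
      exact pow_le_pow_left₀ (Finset.sum_nonneg fun k _ => sq_nonneg _) (hb x) m
  have hv := vb_pos (J := Fin m × Bool)
  have hγ0 : 0 ≤ γ := by
    rw [hγ]
    unfold gam
    positivity
  have h10 : γ * ((1 / 576) ^ m * (vb (Fin m × Bool) / 3)) = (4 / 9) ^ m := by
    rw [hγ]
    unfold gam
    have h11 : (16 : ℝ) ^ (2 * m) = 256 ^ m := by
      rw [pow_mul]
      norm_num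
    rw [h11]
    have h12 : 3 * (256 : ℝ) ^ m / vb (Fin m × Bool) * ((1 / 576) ^ m * (vb (Fin m × Bool) / 3)) =
        256 ^ m * (1 / 576) ^ m := by
      field_simp
    rw [h12, ← mul_pow]
    norm_num
  have h13 : α₀ = 3 / 2 * (4 / 9) ^ m := by
    rw [hα]
    obtain ⟨q, rfl⟩ : ∃ q, m = q + 1 := ⟨m - 1, by omega⟩
    have h14 : 2 * (q + 1) - 1 = 2 * q + 1 := by omega
    rw [h14, pow_succ, pow_mul, pow_succ (4 / 9 : ℝ) q]
    norm_num
    ring
  have h15 : γ * ∫ x : EuclideanSpace ℝ (Fin m × Bool) in ball 0 1,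
      (∑ k, qf (h k) x ^ 2) ^ m ≤ (4 / 9) ^ m := by
    rw [← h10]
    exact mul_le_mul_of_nonneg_left h9 hγ0
  have h16 := mul_le_mul_of_nonneg_left h15 (mul_nonneg hN0 hD)
  rw [h13] at h5
  nlinarith

end assembly

end Pool.Agent.H783.Hopf
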