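import Pool.Agent.H783.Hopf.Forms

/-!
# The curvature operator of the second kind
-/

set_option autoImplicit false
set_option linter.unusedSectionVars false
set_option linter.unusedSimpArgs false
set_option linter.unusedVariables false

namespace Pool.Agent.H783.Hopf

open Finset
open Pool.Agent.W666.GB Pool.Agent.W669.HD

section alg

variable {J : Type} [Fintype J] [DecidableEq J]

/-- the quadratic form of a coefficient array on matrices -/
noncomputable def quad (c : J → J → J → J → ℝ) (a : J → J → ℝ) : ℝ :=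
  ∑ i, ∑ j, ∑ k, ∑ l, c i j k l * (a i j * a k l)

theorem quad_add (c d : J → J → J → J → ℝ) (a : J → J → ℝ) :
    quad (fun i j k l => c i j k l + d i j k l) a = quad c a + quad d a := by
  unfold quad
  simp only [add_mul, Finset.sum_add_distrib]

theorem quad_mul (t : ℝ) (c : J → J → J → J → ℝ) (a : J → J → ℝ) :
    quad (fun i j k l => t * c i j k l) a = t * quad c a := by
  unfold quad
  simp only [Finset.mul_sum, mul_assoc]

/-- symmetrisation -/
noncomputable def symz (v : J → J → ℝ) (i j : J) : ℝ := (v i j + v j i) / 2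

theorem sum_symz {w : J → J → ℝ} (hw : ∀ i j, w j i = w i j) (v : J → J → ℝ) :
    ∑ i, ∑ j, w i j * symz v i j = ∑ i, ∑ j, w i j * v i j := by
  have h1 : ∑ i, ∑ j, w i j * v j i = ∑ i, ∑ j, w i j * v i j := by
    rw [Finset.sum_comm]
    refine Finset.sum_congr rfl fun i _ => Finset.sum_congr rfl fun j _ => ?_
    rw [hw]
  have h2 : ∑ i, ∑ j, w i j * symz v i j =
      (∑ i, ∑ j, w i j * v i j + ∑ i, ∑ j, w i j * v j i) / 2 := by
    rw [← Finset.sum_add_distrib, Finset.sum_div]
    refine Finset.sum_congr rfl fun i _ => ?_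
    rw [← Finset.sum_add_distrib, Finset.sum_div]
    refine Finset.sum_congr rfl fun j _ => ?_
    unfold symz
    ring
  rw [h2, h1]
  ring

theorem quad_symz {c : J → J → J → J → ℝ} (h1 : ∀ i j k l, c j i k l = c i j k l)
    (h2 : ∀ i j k l, c i j l k = c i j k l) (v : J → J → ℝ) :
    quad c v = quad c (symz v) := by
  have h3 : ∀ a b : J → J → ℝ, ∑ i, ∑ j, ∑ k, ∑ l, c i j k l * (a i j * b k l) =
      ∑ i, ∑ j, (∑ k, ∑ l, c i j k l * b k l) * a i j := by
    intro a b
    refine Finset.sum_congr rfl fun i _ => Finset.sum_congr rfl fun j _ => ?_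
    rw [Finset.sum_mul]
    refine Finset.sum_congr rfl fun k _ => ?_
    rw [Finset.sum_mul]
    refine Finset.sum_congr rfl fun l _ => ?_
    ring
  unfold quad
  rw [h3, h3]
  have h4 : ∀ i j, ∑ k, ∑ l, c i j k l * symz v k l = ∑ k, ∑ l, c i j k l * v k l := fun i j =>
    sum_symz (fun k l => h2 i j k l) v
  simp only [h4]
  rw [sum_symz (w := fun i j => ∑ k, ∑ l, c i j k l * v k l)]
  intro i j
  simp only [h1]

/-- Kronecker's symbol -/
noncomputable def kd (i j : J) : ℝ := if i = j then 1 else 0

theorem kd_comm (i j : J) : kd i j = kd j i := by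
  unfold kd
  simp only [eq_comm]

theorem kd_self (i : J) : kd i i = 1 := by simp [kd]

theorem quad_tr (a : J → J → ℝ) :
    quad (fun i j k l => kd i j * kd k l) a = (∑ i, a i i) ^ 2 := by
  unfold quad kd
  simp only [ite_mul, one_mul, zero_mul, Finset.sum_ite_eq, Finset.mem_univ, if_true,
    mul_ite, mul_one, mul_zero, Finset.sum_ite_irrel, Finset.sum_const_zero]
  rw [sq, Finset.sum_mul_sum]

theorem quad_id (a : J → J → ℝ) :
    quad (fun i j k l => kd i k * kd j l) a = ∑ i, ∑ j, a i j ^ 2 := by
  unfold quad kd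
  simp only [ite_mul, one_mul, zero_mul, Finset.sum_ite_eq, Finset.mem_univ, if_true,
    mul_ite, mul_one, mul_zero, Finset.sum_ite_irrel, Finset.sum_const_zero]
  refine Finset.sum_congr rfl fun i _ => Finset.sum_congr rfl fun j _ => ?_
  ring

theorem quad_flip {a : J → J → ℝ} (ha : ∀ i j, a i j = a j i) :
    quad (fun i j k l => kd i l * kd j k) a = ∑ i, ∑ j, a i j ^ 2 := by
  unfold quad kd
  simp only [ite_mul, one_mul, zero_mul, Finset.sum_ite_eq, Finset.mem_univ, if_true,
    mul_ite, mul_one, mul_zero, Finset.sum_ite_irrel, Finset.sum_const_zero]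
  refine Finset.sum_congr rfl fun i _ => Finset.sum_congr rfl fun j _ => ?_
  rw [ha j i]
  ring

/-- the algebraic symmetries of the components of a curvature tensor -/
structure Comp (r : J → J → J → J → ℝ) : Prop where
  a1 : ∀ i j k l, r j i k l = - r i j k l
  a2 : ∀ i j k l, r i j l k = - r i j k l
  pr : ∀ i j k l, r k l i j = r i j k l
  bi : ∀ i j k l, r i j k l + r i k l j + r i l j k = 0

/-- the excess over the constant curvature `-κ` -/
noncomputable def exc (r : J → J → J → J → ℝ) (κ : ℝ) (i j k l : J) : ℝ :=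
  r i j k l + κ * (kd i k * kd j l - kd i l * kd j k)

/-- the quadratic form of the second kind -/
noncomputable def sec (r : J → J → J → J → ℝ) (a : J → J → ℝ) : ℝ :=
  quad (fun i j k l => r i k j l) a

theorem sec_flip (r : J → J → J → J → ℝ) {a : J → J → ℝ} (ha : ∀ i j, a i j = a j i) :
    quad (fun i j k l => r i l j k) a = sec r a := by
  unfold sec quad
  refine Finset.sum_congr rfl fun i _ => Finset.sum_congr rfl fun j _ => ?_
  rw [Finset.sum_comm]
  refine Finset.sum_congr rfl fun k _ => Finset.sum_congr rfl fun l _ => ?_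
  rw [ha l k]

/-- the coefficients of the form -/
noncomputable def cf (r : J → J → J → J → ℝ) (κ t : ℝ) (i j k l : J) : ℝ :=
  t * κ / 3 * (kd i j * kd k l) + (t * κ / 3 * (kd i k * kd j l) +
    (t * κ / 3 * (kd i l * kd j k) + ((-1 / 3) * r i k j l + ((-1 / 3) * r i l j k +
      ((-2 / 3 * κ) * (kd i j * kd k l) + ((κ / 3) * (kd i k * kd j l) +
        (κ / 3) * (kd i l * kd j k)))))))

theorem cf_quad (r : J → J → J → J → ℝ) (κ t : ℝ) {a : J → J → ℝ} (ha : ∀ i j, a i j = a j i) :
    quad (cf r κ t) a = 2 / 3 * (t * κ * (∑ i, ∑ j, a i j ^ 2 + 1 / 2 * (∑ i, a i i) ^ 2) -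
      (sec r a + κ * ((∑ i, a i i) ^ 2 - ∑ i, ∑ j, a i j ^ 2))) := by
  unfold cf
  simp only [quad_add, quad_mul, quad_tr, quad_id, quad_flip ha, sec_flip r ha]
  rw [show quad (fun i j k l => r i k j l) a = sec r a from rfl]
  ring

theorem exc_sec (r : J → J → J → J → ℝ) (κ : ℝ) {a : J → J → ℝ} (ha : ∀ i j, a i j = a j i) :
    sec (exc r κ) a = sec r a + κ * ((∑ i, a i i) ^ 2 - ∑ i, ∑ j, a i j ^ 2) := by
  unfold sec exc
  have h : (fun i j k l => r i k j l + κ * (kd i j * kd k l - kd i l * kd k j)) =
      (fun i j k l : J => r i k j l + (κ * (kd i j * kd k l) +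
        (-κ) * (kd i l * kd j k))) := by
    funext i j k l
    rw [kd_comm k j]
    ring
  rw [h]
  simp only [quad_add, quad_mul, quad_tr, quad_flip ha]
  ring

variable {r : J → J → J → J → ℝ}

theorem cf_s1 (hr : Comp r) (κ t : ℝ) (i j k l : J) : cf r κ t j i k l = cf r κ t i j k l := by
  unfold cf
  have h1 : r j k i l = r i l j k := hr.pr i l j k
  have h2 : r j l i k = r i k j l := hr.pr i k j l
  rw [h1, h2, kd_comm j i]
  ring

theorem cf_s2 (hr : Comp r) (κ t : ℝ) (i j k l : J) : cf r κ t i j l k = cf r κ t i j k l := by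
  unfold cf
  rw [kd_comm l k]
  ring

theorem cf_s3 (hr : Comp r) (κ t : ℝ) (i j k l : J) : cf r κ t k l i j = cf r κ t i j k l := by
  unfold cf
  have h1 : r k i l j = r i k j l := by rw [hr.a1, hr.a2, neg_neg]
  have h2 : r k j l i = r i l j k := by rw [hr.pr l i k j, hr.a1, hr.a2, neg_neg]
  rw [h1, h2, kd_comm k l, kd_comm i j, kd_comm k i, kd_comm l j, kd_comm k j, kd_comm l i]
  rw [kd_comm j i, kd_comm l k]
  ring

/-- the curvature part of the form -/
theorem cf_curv (hr : Comp r) (κ t : ℝ) (i j k l : J) :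
    cf r κ t i k j l - cf r κ t i l j k =
      - r i j k l - κ * (kd i k * kd j l - kd i l * kd j k) := by
  unfold cf
  have h1 : r i l k j = - r i l j k := hr.a2 i l j k
  have h2 : r i j l k = - r i j k l := hr.a2 i j k l
  have h3 := hr.bi i j k l
  rw [h1, h2, kd_comm k l, kd_comm l k, kd_comm k j, kd_comm l j]
  have h4 : r i k l j = - r i j k l - r i l j k := by linarith
  rw [h4, kd_comm k l]
  ring

theorem sec_rank_one (hr : Comp r) (x : J → ℝ) : sec r (fun i j => x i * x j) = 0 := by
  have h1 : sec r (fun i j => x i * x j) = - sec r (fun i j => x i * x j) := by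
    conv_lhs => unfold sec quad
    calc ∑ i, ∑ j, ∑ k, ∑ l, r i k j l * (x i * x j * (x k * x l))
        = ∑ i, ∑ k, ∑ j, ∑ l, r i k j l * (x i * x j * (x k * x l)) := by
          refine Finset.sum_congr rfl fun i _ => ?_
          rw [Finset.sum_comm]
      _ = ∑ k, ∑ i, ∑ j, ∑ l, r i k j l * (x i * x j * (x k * x l)) := Finset.sum_comm
      _ = ∑ k, ∑ j, ∑ i, ∑ l, r i k j l * (x i * x j * (x k * x l)) := by
          refine Finset.sum_congr rfl fun i _ => ?_
          rw [Finset.sum_comm]
      _ = - sec r (fun i j => x i * x j) := by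
          unfold sec quad
          rw [← Finset.sum_neg_distrib]
          refine Finset.sum_congr rfl fun k _ => ?_
          rw [← Finset.sum_neg_distrib]
          refine Finset.sum_congr rfl fun j _ => ?_
          rw [← Finset.sum_neg_distrib]
          refine Finset.sum_congr rfl fun i _ => ?_
          rw [← Finset.sum_neg_distrib]
          refine Finset.sum_congr rfl fun l _ => ?_
          rw [hr.a1 k i j l]
          ring
  linarith

/-- **Decomposition.** -/
theorem decompose (hr : Comp r) {κ t : ℝ}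
    (hq : ∀ a : J → J → ℝ, (∀ i j, a i j = a j i) →
      sec (exc r κ) a ≤ t * κ * (∑ i, ∑ j, a i j ^ 2 + 1 / 2 * (∑ i, a i i) ^ 2)) :
    ∃ (n : ℕ) (h : Fin n → J → J → ℝ), (∀ q i j, h q i j = h q j i) ∧
      (∀ x : EuclideanSpace ℝ J, ∑ q, qf (h q) x ^ 2 = t * κ * (‖x‖ ^ 2) ^ 2) ∧
      ∀ i j k l, r i j k l = -(κ * (kd i k * kd j l - kd i l * kd j k) +
        (∑ q, h q i k * h q j l - ∑ q, h q i l * h q j k)) := by
  have hpsd : (Matrix.of fun p q : J × J => cf r κ t p.1 p.2 q.1 q.2).PosSemidef := by
    refine Matrix.PosSemidef.of_dotProduct_mulVec_nonneg ?_ fun v => ?_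
    · ext p q
      simp only [Matrix.conjTranspose_apply, Matrix.of_apply, star_trivial]
      exact cf_s3 hr κ t _ _ _ _
    · have h1 : star v ⬝ᵥ (Matrix.of fun p q : J × J => cf r κ t p.1 p.2 q.1 q.2).mulVec v =
          quad (cf r κ t) (fun i j => v (i, j)) := by
        unfold quad
        simp only [dotProduct, Matrix.mulVec, Matrix.of_apply, Fintype.sum_prod_type,
          star_trivial, Finset.mul_sum]
        refine Finset.sum_congr rfl fun i _ => Finset.sum_congr rfl fun j _ =>
          Finset.sum_congr rfl fun k _ => Finset.sum_congr rfl fun l _ => ?_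
        ring
      rw [h1, quad_symz (cf_s1 hr κ t) (cf_s2 hr κ t)]
      have hs : ∀ i j, symz (fun i j => v (i, j)) i j = symz (fun i j => v (i, j)) j i := by
        intro i j
        unfold symz
        ring
      rw [cf_quad r κ t hs]
      have h2 := hq _ hs
      rw [exc_sec r κ hs] at h2
      linarith
  obtain ⟨n, v, hv⟩ := Matrix.posSemidef_iff_eq_sum_vecMulVec.1 hpsd
  have hc : ∀ i j k l, ∑ q, v q (i, j) * v q (k, l) = cf r κ t i j k l := by
    intro i j k l
    have h1 := congrFun (congrFun hv (i, j)) (k, l)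
    simp only [Matrix.of_apply, Matrix.sum_apply, Matrix.vecMulVec_apply, Pi.star_apply,
      star_trivial] at h1
    exact h1.symm
  have hh : ∀ i j k l, ∑ q, symz (fun i j => v q (i, j)) i j * symz (fun i j => v q (i, j)) k l =
      cf r κ t i j k l := by
    intro i j k l
    have h1 : ∀ q, symz (fun i j => v q (i, j)) i j * symz (fun i j => v q (i, j)) k l =
        1 / 4 * (v q (i, j) * v q (k, l)) + (1 / 4 * (v q (j, i) * v q (k, l)) +
        (1 / 4 * (v q (i, j) * v q (l, k)) + 1 / 4 * (v q (j, i) * v q (l, k)))) := by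
      intro q
      unfold symz
      ring
    simp only [h1, Finset.sum_add_distrib, ← Finset.mul_sum, hc]
    rw [cf_s1 hr κ t i j l k, cf_s2 hr κ t i j k l, cf_s1 hr κ t i j k l]
    ring
  refine ⟨n, fun q => symz (fun i j => v q (i, j)), fun q i j => ?_, fun x => ?_,
    fun i j k l => ?_⟩
  · unfold symz
    ring
  · have h1 : ∀ q, qf (symz (fun i j => v q (i, j))) x ^ 2 =
        ∑ i, ∑ j, ∑ k, ∑ l, (symz (fun i j => v q (i, j)) i j * symz (fun i j => v q (i, j)) k l) *
          (x i * x j * (x k * x l)) := by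
      intro q
      unfold qf
      rw [sq, Finset.sum_mul]
      refine Finset.sum_congr rfl fun i _ => ?_
      rw [Finset.sum_mul]
      refine Finset.sum_congr rfl fun j _ => ?_
      rw [Finset.mul_sum]
      refine Finset.sum_congr rfl fun k _ => ?_
      rw [Finset.mul_sum]
      refine Finset.sum_congr rfl fun l _ => ?_
      ring
    have h2 : ∑ q, qf (symz (fun i j => v q (i, j))) x ^ 2 =
        quad (cf r κ t) (fun i j => x i * x j) := by
      simp only [h1]
      unfold quad
      rw [Finset.sum_comm]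
      refine Finset.sum_congr rfl fun i _ => ?_
      rw [Finset.sum_comm]
      refine Finset.sum_congr rfl fun j _ => ?_
      rw [Finset.sum_comm]
      refine Finset.sum_congr rfl fun k _ => ?_
      rw [Finset.sum_comm]
      refine Finset.sum_congr rfl fun l _ => ?_
      rw [← hh i j k l, Finset.sum_mul]
    have h3 : ‖x‖ ^ 2 = ∑ i, x i * x i := by
      rw [EuclideanSpace.norm_sq_eq]
      refine Finset.sum_congr rfl fun i _ => ?_
      rw [Real.norm_eq_abs, sq_abs, sq]
    have h4 : ∑ i, ∑ j, (x i * x j) ^ 2 = (∑ i, x i * x i) ^ 2 := by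
      rw [sq (∑ i, x i * x i), Finset.sum_mul_sum]
      refine Finset.sum_congr rfl fun i _ => Finset.sum_congr rfl fun j _ => ?_
      ring
    rw [h2, cf_quad r κ t (fun i j => mul_comm _ _), sec_rank_one hr, h4, h3]
    ring
  · have h1 := cf_curv hr κ t i j k l
    rw [hh i k j l, hh i l j k]
    linarith

end alg

end Pool.Agent.H783.Hopf
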