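import Mathlib

/-!
# Spectral decomposition of the quadratic form of a symmetric matrix
-/

set_option autoImplicit false

namespace Pool.Agent.H783.Hopf

open Finset Polynomial

variable {J : Type} [Fintype J] [DecidableEq J]

/-- the quadratic form of a matrix -/
noncomputable def qf (M : J → J → ℝ) (x : EuclideanSpace ℝ J) : ℝ :=
  ∑ i, ∑ j, M i j * (x i * x j)

theorem qf_cont (M : J → J → ℝ) : Continuous (qf M) := by
  unfold qf
  fun_prop

theorem spec (M : Matrix J J ℝ) (hM : M.IsHermitian) :
    ∃ (lam : J → ℝ) (v : OrthonormalBasis J ℝ (EuclideanSpace ℝ J)),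
      (∀ x : EuclideanSpace ℝ J, qf M x = ∑ k, lam k * inner ℝ (v k) x ^ 2) ∧
      ∀ t : ℝ, (Matrix.scalar J t - M).det = ∏ k, (t - lam k) := by
  refine ⟨hM.eigenvalues, hM.eigenvectorBasis, fun x => ?_, fun t => ?_⟩
  · set v := hM.eigenvectorBasis with hv
    set T : EuclideanSpace ℝ J →ₗ[ℝ] EuclideanSpace ℝ J := Matrix.toEuclideanLin M with hT
    have hsym : T.IsSymmetric := Matrix.isHermitian_iff_isSymmetric.1 hM
    have hTv : ∀ k, T (v k) = hM.eigenvalues k • v k := by
      intro k
      have h1 := hM.mulVec_eigenvectorBasis k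
      ext i
      have h2 := congrFun h1 i
      simpa [hT, Matrix.toEuclideanLin_apply] using h2
    have h1 : qf M x = inner ℝ x (T x) := by
      rw [PiLp.inner_apply]
      unfold qf
      refine Finset.sum_congr rfl fun i _ => ?_
      simp only [hT, RCLike.inner_apply, conj_trivial]
      have : (Matrix.toEuclideanLin M x) i = ∑ j, M i j * x j := by
        simp [Matrix.toEuclideanLin_apply, Matrix.mulVec, dotProduct]
      rw [this, Finset.sum_mul]
      refine Finset.sum_congr rfl fun j _ => ?_
      ring
    rw [h1, ← v.sum_inner_mul_inner x (T x)]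
    refine Finset.sum_congr rfl fun k _ => ?_
    rw [← hsym (v k) x, hTv, inner_smul_left, real_inner_comm (v k) x]
    simp only [conj_trivial]
    ring
  · have h := hM.charpoly_eq
    rw [← Matrix.eval_charpoly, h, Polynomial.eval_prod]
    refine Finset.prod_congr rfl fun k _ => ?_
    simp

end Pool.Agent.H783.Hopf
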