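import Pool.Agent.H783.Hopf.Second

/-!
# Definitions for the statement, and the class in terms of second fundamental forms
-/

set_option autoImplicit false

namespace Pool.Agent.H783.Hopf

open Finset MeasureTheory
open Pool.Agent.W666.GB Pool.Agent.W669.HD
open Pool.Agent.Results.MP_5a30bb_gt.SubmanifoldsOfProducts (SecondForm extR sq)

section stm

variable {V : Type} [NormedAddCommGroup V] [InnerProductSpace ℝ V] {m : ℕ}

/-- symmetric bilinear forms -/
structure SymForm (h : V → V → ℝ) : Prop where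
  symm : ∀ x y, h x y = h y x
  add : ∀ x x' y, h (x + x') y = h x y + h x' y
  smul : ∀ (t : ℝ) (x y : V), h (t • x) y = t * h x y

/-- the tensor `(1/2) h ∧ h`; its value on `(x, y, x, y)` is `h(x,x) h(y,y) - h(x,y)²` -/
def kn (h : V → V → ℝ) (x y z w : V) : ℝ := h x z * h y w - h x w * h y z

/-- `-R = (1/2) A ∧ A + (1/2) ∑ h_k ∧ h_k + ∑ (ξ_k ∧ η_k)²` with any numbers of terms, where
`A ≥ 0` and `∑ h_k(x,x)² ≤ (A(x,x) / 24)²` for all `x` -/
def NarrowCone (A : V → V → ℝ) (R : V → V → V → V → ℝ) : Prop :=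
  SymForm A ∧ (∀ x, 0 ≤ A x x) ∧
  ∃ (n : ℕ) (h : Fin n → V → V → ℝ) (q : ℕ) (ξ η : Fin q → V),
    (∀ k, SymForm (h k)) ∧ (∀ x, ∑ k, h k x x ^ 2 ≤ (A x x / 24) ^ 2) ∧
    ∀ x y z w, R x y z w =
      -(kn A x y z w + ∑ k, kn (h k) x y z w + ∑ k, sq (ξ k) (η k) x y z w)

/-- the quadratic form of the curvature operator of the second kind of `E` at the matrix `a` -/
noncomputable def secondKind (e : OrthonormalBasis (Fin m × Bool) ℝ V)
    (E : V → V → V → V → ℝ) (a : Fin m × Bool → Fin m × Bool → ℝ) : ℝ :=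
  ∑ i, ∑ j, ∑ k, ∑ l, E (e i) (e k) (e j) (e l) * (a i j * a k l)

/-- the curvature operator of the second kind of the difference of `R` and the tensor of constant
curvature `-κ` is at most `(κ / 576) (|a|² + (tr a)² / 2)` at every symmetric matrix `a` -/
def SecondBound (e : OrthonormalBasis (Fin m × Bool) ℝ V) (R : V → V → V → V → ℝ) (κ : ℝ) :
    Prop :=
  ∀ a : Fin m × Bool → Fin m × Bool → ℝ, (∀ i j, a i j = a j i) →
    secondKind e (fun x y z w => R x y z w + κ * unitT x y z w) a ≤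
      κ / 576 * (∑ i, ∑ j, a i j ^ 2 + 1 / 2 * (∑ i, a i i) ^ 2)

/-- `R` is Einstein with the Ricci tensor of constant curvature `-κ`, and its curvature operator of
the second kind is at most `(1 + 1 / 576) κ` at the symmetric matrices of trace zero (where that of
the tensor of constant curvature `-κ` equals `κ`) -/
def EinsteinBound (e : OrthonormalBasis (Fin m × Bool) ℝ V) (R : V → V → V → V → ℝ) (κ : ℝ) :
    Prop :=
  (∀ x y, ∑ i, R (e i) x (e i) y = -((2 * m - 1) * κ * inner ℝ x y)) ∧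
  ∀ a : Fin m × Bool → Fin m × Bool → ℝ, (∀ i j, a i j = a j i) → ∑ i, a i i = 0 →
    secondKind e R a ≤ (1 + 1 / 576) * κ * ∑ i, ∑ j, a i j ^ 2

end stm

end Pool.Agent.H783.Hopf
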