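import Pool.Agent.H783.Hopf.Cone
import Pool.Graph.R_pool_sql_team_seeded_843ab51a.Results.MP_5a30bb_gt.SubmanifoldsOfProducts

/-!
# Curvature tensors
-/

set_option autoImplicit false

namespace Pool.Agent.H783.Hopf

open Finset MeasureTheory Metric
open Pool.Agent.W666.GB Pool.Agent.W669.HD

section gbc

variable {m : ℕ} {V : Type} [NormedAddCommGroup V] [InnerProductSpace ℝ V]

/-- the integrand from the double alternating form -/
theorem gbc_of_forms (e : OrthonormalBasis (Fin m × Bool) ℝ V) (R : V → V → V → V → ℝ)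
    (C : Fin m × Bool → Fin m × Bool → Fin m × Bool → Fin m × Bool → ℝ)
    (h : ∀ i j k l, R (e i) (e j) (e k) (e l) = -(C i k j l - C i l j k)) :
    (-1) ^ m * gbc e R = 1 / ((4 * Real.pi) ^ m * m.factorial) * Yf C := by
  have hπ := Real.pi_pos
  have h3 := lift_sum (B := Fin m) C
    (fun i j k l => - R (e i) (e j) (e k) (e l)) (fun i j k l => by rw [h]; ring)
  rw [Fintype.card_fin] at h3
  have h4 : (-1) ^ m * gbc e R = 1 / ((8 * Real.pi) ^ m * m.factorial) *
      (∑ σ : Equiv.Perm (Fin m × Bool), ∑ τ : Equiv.Perm (Fin m × Bool), sn σ * sn τ *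
        ∏ b : Fin m, (- R (e (σ (b, false))) (e (σ (b, true))) (e (τ (b, false)))
          (e (τ (b, true))))) := by
    rw [gbc, mul_left_comm]
    congr 1
    rw [Finset.mul_sum]
    refine Finset.sum_congr rfl fun σ _ => ?_
    rw [Finset.mul_sum]
    refine Finset.sum_congr rfl fun τ _ => ?_
    rw [Finset.prod_neg, Finset.card_univ, Fintype.card_fin]
    simp only [sn]
    ring
  rw [h4, h3]
  have h8 : (8 * Real.pi) ^ m = 2 ^ m * (4 * Real.pi) ^ m := by
    rw [← mul_pow]
    congr 1
    ring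
  rw [h8]
  field_simp

/-- the lower bound in dimension zero -/
theorem gbc_dim_zero (e : OrthonormalBasis (Fin 0 × Bool) ℝ V) (R : V → V → V → V → ℝ) :
    gbc e R = 1 := by
  unfold gbc
  simp

/-- **The integrand of a tensor whose second fundamental form lies in a narrow cone.** -/
theorem gbc_cone {K : Type} [Fintype K] [DecidableEq K]
    (e : OrthonormalBasis (Fin m × Bool) ℝ V) (R : V → V → V → V → ℝ)
    (A : Fin m × Bool → Fin m × Bool → ℝ) (h : K → Fin m × Bool → Fin m × Bool → ℝ)
    (hAs : ∀ i j, A i j = A j i) (hs : ∀ k i j, h k i j = h k j i)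
    (hA : ∀ x : EuclideanSpace ℝ (Fin m × Bool), 0 ≤ qf A x)
    (hb : ∀ x : EuclideanSpace ℝ (Fin m × Bool), ∑ k, qf (h k) x ^ 2 ≤ 1 / 576 * qf A x ^ 2)
    (hR : ∀ i j k l, R (e i) (e j) (e k) (e l) = -((A i k * A j l + ∑ q, h q i k * h q j l) -
      (A i l * A j k + ∑ q, h q i l * h q j k))) :
    1 / 2 * (4 / 9) ^ m * ((Matrix.of A).det * roundGB m 1) ≤ (-1) ^ m * gbc e R := by
  rcases Nat.eq_zero_or_pos m with rfl | hm
  · rw [gbc_dim_zero]
    simp [roundGB]
    norm_num
  · have h1 := Yf_cone (by omega) A h hAs hs hA hb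
    rw [gbc_of_forms e R (fun a b c d => ∑ k, bb A h k a b * bb A h k c d)]
    · have hπ := Real.pi_pos
      have h5 : (0 : ℝ) < 1 / ((4 * Real.pi) ^ m * m.factorial) := by positivity
      have h6 := mul_le_mul_of_nonneg_left h1 h5.le
      refine le_trans (le_of_eq ?_) h6
      rw [roundGB, one_pow]
      ring
    · intro i j k l
      rw [hR]
      simp only [Fintype.sum_option, bb, Option.elim]

end gbc

end Pool.Agent.H783.Hopf
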